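import Pool.Agent.W74_5f6b2a.Replace

/-!
Formulas of bounded weft: change of the data bits and of the fan-in. Small inputs.
-/

namespace Pool.Agent.W74_5f6b2a

open Finset Pool.Agent.W_MP_5f6b2a_mon

theorem weft_fanin {N M s s' t d : ℕ} (hs : s ≤ s') {F : Finset (Fin N) → (Fin M → Prop) → Prop}
    (h : Weft s t d F) : Weft s' t d F := by
  induction h with
  | sel t d l => exact Weft.sel _ _ l
  | nsel t d l => exact Weft.nsel _ _ l
  | data t d j => exact Weft.data _ _ j
  | and _ _ ih1 ih2 => exact Weft.and ih1 ih2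
  | or _ _ ih1 ih2 => exact Weft.or ih1 ih2
  | all m hm F _ ih => exact Weft.all m (hm.trans hs) F ih
  | ex m hm F _ ih => exact Weft.ex m (hm.trans hs) F ih

theorem weft_reindex {N M M' s t d : ℕ} (ι : Fin M → Fin M')
    {F : Finset (Fin N) → (Fin M → Prop) → Prop} (h : Weft s t d F) :
    Weft s t d fun S (y : Fin M' → Prop) => F S fun j => y (ι j) := by
  induction h with
  | sel t d l => exact Weft.sel _ _ l
  | nsel t d l => exact Weft.nsel _ _ l
  | data t d j => exact Weft.data _ _ (ι j)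
  | and _ _ ih1 ih2 => exact Weft.and ih1 ih2
  | or _ _ ih1 ih2 => exact Weft.or ih1 ih2
  | all m hm F _ ih => exact Weft.all m hm (fun i S y => F i S fun j => y (ι j)) ih
  | ex m hm F _ ih => exact Weft.ex m hm (fun i S y => F i S fun j => y (ι j)) ih

/-- Every monotone function of finitely many variables has a monotone program. -/
theorem exists_monProg {n : ℕ} (φ : (Fin n → Bool) → Prop) (hφ : ∀ x x', x ≤ x' → φ x → φ x') :
    ∃ (s : ℕ) (p : Fin s → (Fin n → Bool) → Prop) (i : Fin s), MonProg p ∧ ∀ x, p i x ↔ φ x := by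
  classical
  have h0 : MonProg fun (i : Fin n) (x : Fin n → Bool) => x i = true :=
    fun i => Or.inl ⟨i, fun x => Iff.rfl⟩
  let e := Fintype.equivFin (Fin n → Bool)
  have h1 : ∀ j : Fin (Fintype.card (Fin n → Bool)),
      MF (n * (1 + 1) + 1) fun y : Fin n → Prop =>
        φ (e.symm j) ∧ ∀ i, (e.symm j) i = true → y i := by
    intro j
    by_cases hj : φ (e.symm j)
    · refine MF.congr (MF.forall (f := fun i (y : Fin n → Prop) => (e.symm j) i = true → y i)
        (a := 1) fun i => ?_) fun y => by simp [hj]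
      by_cases hi : (e.symm j) i = true
      · exact MF.congr (MF.var i) fun y => by simp [hi]
      · exact MF.congr MF.tru fun y => by simp [hi]
    · exact MF.mono (by omega) (MF.congr MF.fls fun y => by simp [hj])
  obtain ⟨s', p', -, h3, i, h4⟩ := MF.comp h0 (MF.exists h1)
  refine ⟨s', p', i, h3, fun x => ?_⟩
  rw [h4]
  constructor
  · rintro ⟨j, hj, hx⟩
    refine hφ _ _ (fun i => ?_) hj
    cases hi : (e.symm j) i
    · exact Bool.false_le _
    · rw [hx i hi]
  · intro hx
    exact ⟨e x, by simpa using hx, fun i hi => by simpa using hi⟩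

/-- Small inputs do not matter for the membership in `MonW t`. -/
theorem MonW_of_large {Q : ParamProblem} {t : ℕ} (hQ : ∀ n k x x', x ≤ x' → Q n x k → Q n x' k)
    (c d : ℕ) (f g ν : ℕ → ℕ)
    (h : ∀ k n : ℕ, ν k ≤ n → ∃ (s N k' : ℕ) (p : Fin s → (Fin n → Bool) → Prop)
      (F : Finset (Fin N) → (Fin s → Prop) → Prop),
      s ≤ f k * (n + 1) ^ c ∧ N ≤ f k * (n + 1) ^ c ∧ k' ≤ g k ∧ MonProg p ∧
      Weft (f k * (n + 1) ^ c) t d F ∧
      ∀ x, Q n x k ↔ ∃ S : Finset (Fin N), S.card = k' ∧ F S fun i => p i x) : Q ∈ MonW t := by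
  choose sz pr out h1 h2 using fun n k => exists_monProg (fun x => Q n x k) (hQ n k)
  refine ⟨c, d, fun k => f k + ∑ n ∈ range (ν k), sz n k, g, fun k n => ?_⟩
  by_cases hn : ν k ≤ n
  · obtain ⟨s, N, k', p, F, h3, h4, h5, h6, h7, h8⟩ := h k n hn
    have hle : f k * (n + 1) ^ c ≤ (f k + ∑ n ∈ range (ν k), sz n k) * (n + 1) ^ c :=
      Nat.mul_le_mul_right _ (Nat.le_add_right _ _)
    exact ⟨s, N, k', p, F, h3.trans hle, h4.trans hle, h5, h6, weft_fanin hle h7, h8⟩
  · refine ⟨sz n k, 0, 0, pr n k, fun _ y => y (out n k), ?_, Nat.zero_le _, Nat.zero_le _, h1 n k,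
      Weft.data _ _ _, fun x => ?_⟩
    · have h3 : sz n k ≤ ∑ n ∈ range (ν k), sz n k :=
        single_le_sum (f := fun n => sz n k) (fun _ _ => Nat.zero_le _)
          (mem_range.2 (not_le.1 hn))
      calc sz n k ≤ (f k + ∑ n ∈ range (ν k), sz n k) * 1 := by omega
        _ ≤ _ := Nat.mul_le_mul_left _ (Nat.one_le_pow _ _ (Nat.succ_pos n))
    · rw [← h2]
      constructor
      · exact fun h => ⟨∅, rfl, h⟩
      · exact fun ⟨_, _, h⟩ => h

end Pool.Agent.W74_5f6b2a
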