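import Pool.Agent.W74_5f6b2a.Fischer
import Pool.Agent.W74_5f6b2a.Large

/-!
`NegW r t = GenW t` if `n + 1 ≤ 2 ^ r n` for all `n`.
-/

namespace Pool.Agent.W74_5f6b2a

open Finset Pool.Agent.W_MP_5f6b2a_mon

theorem negProg_univ {V : Type} {s : ℕ} {B : Finset (Fin s)} {p : Fin s → (V → Bool) → Prop}
    (hp : NegProg B p) : NegProg univ p := by
  intro i
  rcases hp i with h | h | h | h | h | ⟨_, h⟩
  · exact Or.inl h
  · exact Or.inr (Or.inl h)
  · exact Or.inr (Or.inr (Or.inl h))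
  · exact Or.inr (Or.inr (Or.inr (Or.inl h)))
  · exact Or.inr (Or.inr (Or.inr (Or.inr (Or.inl h))))
  · exact Or.inr (Or.inr (Or.inr (Or.inr (Or.inr ⟨mem_univ _, h⟩))))

theorem negW_subset_genW (r : ℕ → ℕ) (t : ℕ) : NegW r t ⊆ GenW t := by
  rintro Q ⟨c, d, f, g, h⟩
  refine ⟨c, d, f, g, fun k n => ?_⟩
  obtain ⟨s, N, k', B, p, F, h1, h2, h3, h4, h5, h6, h7⟩ := h k n
  exact ⟨s, N, k', p, F, h1, h2, h3, negProg_univ h5, h6, h7⟩

theorem genW_subset_negW {r : ℕ → ℕ} (hr : ∀ n, n + 1 ≤ 2 ^ r n) (t : ℕ) :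
    GenW t ⊆ NegW r t := by
  rintro Q ⟨c, d, f, g, h⟩
  refine ⟨c + 3, d, fun k => 2 * f k + 17, g, fun k n => ?_⟩
  obtain ⟨s, N, k', p, F, h1, h2, h3, h4, h5, h6⟩ := h k n
  set r' := Nat.clog 2 (n + 1) with hr'
  have h7 : n + 1 ≤ 2 ^ r' := Nat.le_pow_clog (by norm_num) _
  have h8 : r' ≤ r n := Nat.clog_le_of_le_pow (hr n)
  have h9 : 2 ^ r' ≤ 2 * (n + 1) := by
    rcases Nat.eq_zero_or_pos n with rfl | hn
    · simp [hr']
    · have h10 := Nat.pow_pred_clog_lt_self (b := 2) (by norm_num) (x := n + 1) (by omega)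
      have h11 : 0 < r' := Nat.clog_pos (by norm_num) (by omega)
      have h12 : 2 ^ r' = 2 * 2 ^ r'.pred := by
        conv_lhs => rw [← Nat.succ_pred_eq_of_pos h11, pow_succ]
        ring
      rw [h12]
      exact Nat.mul_le_mul_left _ h10.le
  obtain ⟨s', B, q, h10, h11, h12, h13⟩ := markov_fischer h4 (by omega : n < 2 ^ r')
  choose e he using fun i : Fin s => h13 (p i) ⟨i, rfl⟩
  have hle : f k * (n + 1) ^ c ≤ (2 * f k + 17) * (n + 1) ^ (c + 3) := by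
    refine Nat.mul_le_mul (by omega) (Nat.pow_le_pow_right (Nat.succ_pos n) (by omega))
  refine ⟨s', N, k', B, q, fun S y => F S fun i => y (e i), ?_, h2.trans hle, h3,
    (h11.trans h8).trans (Nat.le_add_right _ _), h12, weft_fanin hle (weft_reindex e h5),
    fun x => ?_⟩
  · refine h10.trans ?_
    set m := n + 1 with hm
    have hm1 : 1 ≤ m := by omega
    have hn : n ≤ m := by omega
    have a1 : (n + 1) * ((n + 1) * (2 ^ r' * 2)) ≤ 4 * m ^ 3 := by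
      calc (n + 1) * ((n + 1) * (2 ^ r' * 2)) ≤ m * (m * ((2 * m) * 2)) := by
            rw [← hm]
            gcongr
        _ = 4 * m ^ 3 := by ring
    have a2 : m ≤ m ^ 3 := Nat.le_self_pow (by norm_num) m
    have a3 : m ^ 2 ≤ m ^ 3 := Nat.pow_le_pow_right hm1 (by norm_num)
    have a4 : n * ((n + 1) * 2) ≤ 2 * m ^ 2 := by
      rw [← hm]
      calc n * (m * 2) ≤ m * (m * 2) := Nat.mul_le_mul_right _ hn
        _ = 2 * m ^ 2 := by ring
    have a5 : n + (n + 1) * ((n + 1) * (2 ^ r' * 2)) + 5 * 2 ^ r' + n * ((n + 1) * 2) ≤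
        17 * m ^ 3 := by
      have : 5 * 2 ^ r' ≤ 10 * m := by omega
      omega
    have a6 : 1 ≤ m ^ c := Nat.one_le_pow _ _ hm1
    have a7 : m ^ 3 ≤ m ^ (c + 3) := Nat.pow_le_pow_right hm1 (by omega)
    have a8 : s * 2 ≤ 2 * f k * m ^ (c + 3) := by
      calc s * 2 ≤ f k * m ^ c * 2 := Nat.mul_le_mul_right _ h1
        _ = 2 * f k * m ^ c := by ring
        _ ≤ _ := Nat.mul_le_mul_left _ (Nat.pow_le_pow_right hm1 (by omega))
    calc n + (n + 1) * ((n + 1) * (2 ^ r' * 2)) + 5 * 2 ^ r' + n * ((n + 1) * 2) + s * 2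
        ≤ 17 * m ^ (c + 3) + 2 * f k * m ^ (c + 3) := by omega
      _ = _ := by ring
  · rw [h6]
    simp only [he]

theorem negW_eq_genW {r : ℕ → ℕ} (hr : ∀ n, n + 1 ≤ 2 ^ r n) (t : ℕ) : NegW r t = GenW t :=
  (negW_subset_genW r t).antisymm (genW_subset_negW hr t)

end Pool.Agent.W74_5f6b2a
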