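import Pool.Agent.W74_5f6b2a.Large
import Pool.Agent.W_MP_5f6b2a_mon.Main

/-!
Alternating quantifiers, `NSat t` is monotone, trivial inclusions.
-/

namespace Pool.Agent.W74_5f6b2a

open Finset Pool.Agent.W_MP_5f6b2a_mon

theorem alt_imp {m : ℕ} (j : ℕ) : ∀ (b : Bool) {φ ψ : (Fin j → Fin m) → Prop},
    (∀ q, φ q → ψ q) → alt j b φ → alt j b ψ := by
  induction j with
  | zero =>
    intro b φ ψ h
    cases b
    · exact h _
    · exact h _
  | succ j ih =>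
    intro b φ ψ h
    cases b
    · rintro ⟨i, hi⟩
      exact ⟨i, ih true (fun q => h _) hi⟩
    · exact fun hi i => ih false (fun q => h _) (hi i)

theorem alt_congr {m : ℕ} (j : ℕ) (b : Bool) {φ ψ : (Fin j → Fin m) → Prop}
    (h : ∀ q, φ q ↔ ψ q) : alt j b φ ↔ alt j b ψ :=
  ⟨alt_imp j b fun q => (h q).1, alt_imp j b fun q => (h q).2⟩

theorem nsat_mono {t n k : ℕ} {x x' : Fin n → Bool} (hx : x ≤ x') (h : NSat t n x k) :
    NSat t n x' k := by
  obtain ⟨m, hm, S, hS, hA⟩ := h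
  refine ⟨m, hm, S, hS, alt_imp t true (fun q hq => ?_) hA⟩
  have key : ∀ i, x i = true → x' i = true := by
    intro i hi
    have := hx i
    rw [hi] at this
    exact top_le_iff.1 this
  by_cases ht : Even t
  · rw [if_pos ht] at hq ⊢
    exact fun l hl => key _ (hq l hl)
  · rw [if_neg ht] at hq ⊢
    obtain ⟨l, hl, hq⟩ := hq
    exact ⟨l, hl, key _ hq⟩

theorem monProg_neg {V : Type} {s : ℕ} {p : Fin s → (V → Bool) → Prop} (hp : MonProg p) :
    NegProg ∅ p := by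
  intro i
  rcases hp i with h | h | h | h | h
  · exact Or.inl h
  · exact Or.inr (Or.inl h)
  · exact Or.inr (Or.inr (Or.inl h))
  · exact Or.inr (Or.inr (Or.inr (Or.inl h)))
  · exact Or.inr (Or.inr (Or.inr (Or.inr (Or.inl h))))

theorem monW_subset_negW (r : ℕ → ℕ) (t : ℕ) : MonW t ⊆ NegW r t := by
  rintro Q ⟨c, d, f, g, h⟩
  refine ⟨c, d, f, g, fun k n => ?_⟩
  obtain ⟨s, N, k', p, F, h1, h2, h3, h4, h5, h6⟩ := h k n
  exact ⟨s, N, k', ∅, p, F, h1, h2, h3, by simp, monProg_neg h4, h5, h6⟩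

theorem negW_mono (r : ℕ → ℕ) (t : ℕ) : NegW r t ⊆ NegW r (t + 1) := by
  rintro Q ⟨c, d, f, g, h⟩
  refine ⟨c, d, f, g, fun k n => ?_⟩
  obtain ⟨s, N, k', B, p, F, h1, h2, h3, h4, h5, h6, h7⟩ := h k n
  exact ⟨s, N, k', B, p, F, h1, h2, h3, h4, h5, h6.mono, h7⟩

end Pool.Agent.W74_5f6b2a
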