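import Pool.Agent.W_MP_5f6b2a_mon.Defs

/-!
The W-hierarchy for reductions computed by circuits with few negation gates: definitions.

* `NegProg B p`: a straight-line program (Boolean circuit) in which only the gates in `B` may be
  negation gates.
* `NegW r t`: the analogue of `W[t]` for non-uniform reductions computed by circuits of fpt size and
  unbounded depth with at most `r n + f k` negation gates.
* `GenW t`: the same with any number of negation gates, i.e. non-uniform `W[t]`.
-/

namespace Pool.Agent.W74_5f6b2a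

open Pool.Agent.W_MP_5f6b2a_mon

/-- The sequence `p 0, …, p (s - 1)` of Boolean functions of the variables in `V` is a straight-line
program (a Boolean circuit with `s` gates) in which all negation gates belong to the set `B`: every
`p i` is a variable, a constant, the AND or the OR of two earlier members, or, if `i ∈ B`, the
negation of an earlier member. -/
def NegProg {V : Type} {s : ℕ} (B : Finset (Fin s)) (p : Fin s → (V → Bool) → Prop) : Prop :=
  ∀ i, (∃ v, ∀ x, p i x ↔ x v = true) ∨ (∀ x, p i x) ∨ (∀ x, ¬ p i x) ∨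
    (∃ j k, j < i ∧ k < i ∧ ∀ x, p i x ↔ p j x ∧ p k x) ∨
    (∃ j k, j < i ∧ k < i ∧ ∀ x, p i x ↔ p j x ∨ p k x) ∨
    (i ∈ B ∧ ∃ j, j < i ∧ ∀ x, p i x ↔ ¬ p j x)

/-- The analogue of `W[t]` for reductions computed by circuits with at most `r n` negation gates (up
to a number depending on the parameter only): the problems `Q` such that for some `c`, `d`, `f`, `g`
and all `k`, `n` there are a circuit `p` with `s ≤ f k * (n + 1) ^ c` gates, at most `r n + f k` of
which are negation gates, and a formula `F` of weft at most `t`, depth at most `d` and fan-in at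
most `f k * (n + 1) ^ c` over a set of `N ≤ f k * (n + 1) ^ c` elements, such that `(x, k)` is a
yes-instance if and only if some set `S` with exactly `k' ≤ g k` elements satisfies `F S y`, the
data bits `y` being the values of the gates of `p` on `x`. -/
def NegW (r : ℕ → ℕ) (t : ℕ) : Set ParamProblem :=
  {Q | ∃ (c d : ℕ) (f g : ℕ → ℕ), ∀ k n : ℕ,
    ∃ (s N k' : ℕ) (B : Finset (Fin s)) (p : Fin s → (Fin n → Bool) → Prop)
      (F : Finset (Fin N) → (Fin s → Prop) → Prop),
      s ≤ f k * (n + 1) ^ c ∧ N ≤ f k * (n + 1) ^ c ∧ k' ≤ g k ∧ B.card ≤ r n + f k ∧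
      NegProg B p ∧ Weft (f k * (n + 1) ^ c) t d F ∧
      ∀ x, Q n x k ↔ ∃ S : Finset (Fin N), S.card = k' ∧ F S fun i => p i x}

/-- Non-uniform `W[t]`: as `NegW r t`, with no bound for the number of negation gates. -/
def GenW (t : ℕ) : Set ParamProblem :=
  {Q | ∃ (c d : ℕ) (f g : ℕ → ℕ), ∀ k n : ℕ,
    ∃ (s N k' : ℕ) (p : Fin s → (Fin n → Bool) → Prop)
      (F : Finset (Fin N) → (Fin s → Prop) → Prop),
      s ≤ f k * (n + 1) ^ c ∧ N ≤ f k * (n + 1) ^ c ∧ k' ≤ g k ∧
      NegProg Finset.univ p ∧ Weft (f k * (n + 1) ^ c) t d F ∧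
      ∀ x, Q n x k ↔ ∃ S : Finset (Fin N), S.card = k' ∧ F S fun i => p i x}

end Pool.Agent.W74_5f6b2a
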