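import Pool.Agent.W74_5f6b2a.Gadget

/-!
Many disjoint copies of `NSat t` inside one instance of `NSat t`: the embedding.
-/

namespace Pool.Agent.W74_5f6b2a

open Finset Pool.Agent.W_MP_5f6b2a_mon

variable {k s p m m' : ℕ} {K : Type}

theorem nsat_iff {t m k : ℕ} (x : Fin (m ^ (t + 1)) → Bool) :
    NSat t (m ^ (t + 1)) x k ↔ ∃ S : Finset (Fin m), S.card = k ∧ alt t true fun q =>
      if Even t then ∀ l ∈ S, x (finFunctionFinEquiv (Fin.snoc q l)) = true
      else ∃ l ∈ S, x (finFunctionFinEquiv (Fin.snoc q l)) = true := by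
  constructor
  · rintro ⟨m', h, S, hS, hA⟩
    obtain rfl : m' = m := Nat.pow_left_injective (Nat.succ_ne_zero t) h
    exact ⟨S, hS, hA⟩
  · rintro ⟨S, hS, hA⟩
    exact ⟨m, rfl, S, hS, hA⟩

/-- The index set of the copies. -/
abbrev Cop (s p : ℕ) := (Fin (s + 1) → Fin p) × Fin p

/-- The leaves: for a constraint `κ` at the first coordinate `cp κ`, otherwise `G` or its
negation. -/
def bigP (pol : Bool) (cp : K → (Fin (s + 1) → Coord K p m) → Elem k s p m → Prop)
    (x : Cop s p → Fin (m ^ (s + 1 + 1)) → Bool) (q : Fin (s + 1) → Coord K p m)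
    (e : Elem k s p m) : Prop :=
  (∃ κ, q 0 = .con κ ∧ cp κ q e) ∨ ((∀ κ, q 0 ≠ .con κ) ∧
    ((pol = true ∧ G (fun β b i l => x (β, b) (finFunctionFinEquiv (Fin.snoc i l)) = true) q e) ∨
      (pol = false ∧
        ¬ G (fun β b i l => x (β, b) (finFunctionFinEquiv (Fin.snoc i l)) = false) q e)))

open Classical in
/-- The embedding. -/
noncomputable def psi (pol : Bool)
    (cp : K → (Fin (s + 1) → Coord K p m) → Elem k s p m → Prop) (ι : Elem k s p m → Fin m')
    (dec : Fin m' → Coord K p m) (x : Cop s p → Fin (m ^ (s + 1 + 1)) → Bool)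
    (v : Fin (m' ^ (s + 1 + 1))) : Bool :=
  decide (∃ e, ι e = finFunctionFinEquiv.symm v (Fin.last (s + 1)) ∧
    bigP pol cp x (fun a => dec (finFunctionFinEquiv.symm v a.castSucc)) e)

theorem psi_val {pol : Bool} {cp : K → (Fin (s + 1) → Coord K p m) → Elem k s p m → Prop}
    {ι : Elem k s p m → Fin m'} {dec : Fin m' → Coord K p m}
    {x : Cop s p → Fin (m ^ (s + 1 + 1)) → Bool} (q : Fin (s + 1) → Fin m') (l : Fin m') :
    psi pol cp ι dec x (finFunctionFinEquiv (Fin.snoc q l)) = true ↔
      ∃ e, ι e = l ∧ bigP pol cp x (fun a => dec (q a)) e := by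
  unfold psi
  simp only [decide_eq_true_eq, Equiv.symm_apply_apply, Fin.snoc_last, Fin.snoc_castSucc]

/-- Every bit of `psi` is a bit of the input or a constant. -/
theorem psi_proj {pol : Bool} {cp : K → (Fin (s + 1) → Coord K p m) → Elem k s p m → Prop}
    {ι : Elem k s p m → Fin m'} (hι : Function.Injective ι) {dec : Fin m' → Coord K p m}
    (v : Fin (m' ^ (s + 1 + 1))) :
    (∃ j w, ∀ x, psi pol cp ι dec x v = x j w) ∨ ∃ c : Bool, ∀ x, psi pol cp ι dec x v = c := by
  classical
  set q : Fin (s + 1) → Coord K p m := fun a => dec (finFunctionFinEquiv.symm v a.castSucc) with hq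
  set l : Fin m' := finFunctionFinEquiv.symm v (Fin.last (s + 1)) with hl
  have hpsi : ∀ x, psi pol cp ι dec x v = decide (∃ e, ι e = l ∧ bigP pol cp x q e) :=
    fun x => rfl
  have hconst : ∀ P : Prop, (∀ x, (∃ e, ι e = l ∧ bigP pol cp x q e) ↔ P) →
      ∃ c : Bool, ∀ x, psi pol cp ι dec x v = c := by
    intro P hP
    refine ⟨decide P, fun x => ?_⟩
    rw [hpsi]
    exact decide_eq_decide.2 (hP x)
  by_cases h0 : ∃ e, ι e = l
  · obtain ⟨e, he⟩ := h0
    have h1 : ∀ x, (∃ e, ι e = l ∧ bigP pol cp x q e) ↔ bigP pol cp x q e := by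
      intro x
      constructor
      · rintro ⟨e', he', h⟩
        rwa [hι (he.trans he'.symm)]
      · exact fun h => ⟨e, he, h⟩
    by_cases h2 : ∃ κ, q 0 = .con κ
    · right
      refine hconst (∃ κ, q 0 = .con κ ∧ cp κ q e) fun x => ?_
      rw [h1]
      constructor
      · rintro (h | ⟨h, -⟩)
        · exact h
        · obtain ⟨κ, hκ⟩ := h2
          exact absurd hκ (h κ)
      · exact Or.inl
    · have h3 : ∀ κ, q 0 ≠ .con κ := fun κ h => h2 ⟨κ, h⟩
      have h4 : ∀ x, bigP pol cp x q e ↔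
          ((pol = true ∧ G (fun β b i l => x (β, b) (finFunctionFinEquiv (Fin.snoc i l)) = true)
            q e) ∨ (pol = false ∧
            ¬ G (fun β b i l => x (β, b) (finFunctionFinEquiv (Fin.snoc i l)) = false) q e)) := by
        intro x
        constructor
        · rintro (⟨κ, hκ, -⟩ | ⟨-, h⟩)
          · exact absurd hκ (h3 κ)
          · exact h
        · exact fun h => Or.inr ⟨h3, h⟩
      rcases e with ⟨c, b, l'⟩ | ⟨a, b⟩ | b
      · by_cases h5 : ∃ (β : Fin (s + 1) → Fin p) (i : Fin (s + 1) → Fin m),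
            ∀ a, q a = .reg (β a) (i a)
        · left
          obtain ⟨β, i, h5⟩ := h5
          refine ⟨(β, b), finFunctionFinEquiv (Fin.snoc i l'), fun x => ?_⟩
          have h6 : ∀ z : (Fin (s + 1) → Fin p) → Fin p → (Fin (s + 1) → Fin m) → Fin m → Prop,
              G z q (.row c b l' : Elem k s p m) ↔ z β b i l' := by
            intro z
            constructor
            · rintro ⟨β', i', h6, h7⟩
              have h8 : β = β' := by
                funext a
                have := (h5 a).symm.trans (h6 a)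
                simp only [Coord.reg.injEq] at this
                exact this.1
              have h9 : i = i' := by
                funext a
                have := (h5 a).symm.trans (h6 a)
                simp only [Coord.reg.injEq] at this
                exact this.2
              rwa [h8, h9]
            · exact fun h => ⟨β, i, h5, h⟩
          rw [hpsi, Bool.eq_iff_iff, decide_eq_true_eq, h1, h4, h6, h6]
          cases pol
          · simp
          · simp
        · right
          refine hconst (pol = false) fun x => ?_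
          rw [h1, h4]
          have h6 : ∀ z : (Fin (s + 1) → Fin p) → Fin p → (Fin (s + 1) → Fin m) → Fin m → Prop,
              ¬ G z q (.row c b l' : Elem k s p m) := by
            rintro z ⟨β, i, h6, -⟩
            exact h5 ⟨β, i, h6⟩
          simp only [h6, and_false, false_or, not_false_eq_true, and_true]
      · right
        refine hconst ((pol = true ∧ G (K := K) (fun _ _ _ _ => True) q (.sel a b : Elem k s p m))
          ∨ (pol = false ∧ ¬ G (K := K) (fun _ _ _ _ => True) q (.sel a b : Elem k s p m)))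
          fun x => ?_
        rw [h1, h4]
        exact Iff.rfl
      · right
        refine hconst ((pol = true ∧ G (K := K) (fun _ _ _ _ => True) q (.top b : Elem k s p m))
          ∨ (pol = false ∧ ¬ G (K := K) (fun _ _ _ _ => True) q (.top b : Elem k s p m)))
          fun x => ?_
        rw [h1, h4]
        exact Iff.rfl
  · right
    refine hconst False fun x => ?_
    refine iff_of_false ?_ id
    rintro ⟨e, he, -⟩
    exact h0 ⟨e, he⟩

/-! ### Odd `t` -/

/-- The constraints for odd `t`. -/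
abbrev KO (k s p : ℕ) := Grp k s ⊕ (Fin k × Fin p)

/-- The hitting sets for odd `t`. -/
def HO : KO k s p → Elem k s p m → Prop
  | Sum.inl γ, e => grp e = γ
  | Sum.inr (c, b'), e => (∃ b, b ≠ b' ∧ e = .top b) ∨ ∃ l, e = .row c b' l

theorem nsat_odd (hs : Odd (s + 1)) (hm' : 0 < m') (hkm : k ≤ m) (ι : Elem k s p m → Fin m')
    (hι : Function.Injective ι) (dec : Fin m' → Coord (KO k s p) p m)
    (hdec : Function.Surjective dec) (x : Cop s p → Fin (m ^ (s + 1 + 1)) → Bool) :
    NSat (s + 1) (m' ^ (s + 1 + 1)) (psi true (fun κ _ => HO κ) ι dec x) (k + s + 2) ↔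
      ∃ j, NSat (s + 1) (m ^ (s + 1 + 1)) (x j) k := by
  classical
  have hne : ¬ Even (s + 1) := Nat.not_even_iff_odd.2 hs
  simp only [nsat_iff, if_neg hne, psi_val]
  have hbig : ∀ q e, bigP true (fun κ _ => HO κ) x q e ↔ (∃ κ, q 0 = .con κ ∧ HO κ e) ∨
      ((∀ κ, q 0 ≠ .con κ) ∧ G (fun β b i l =>
        x (β, b) (finFunctionFinEquiv (Fin.snoc i l)) = true) q (e : Elem k s p m)) := by
    intro q e
    unfold bigP
    simp
  constructor
  · rintro ⟨S, hS, hA⟩
    have hA1 : alt (s + 1) true fun q : Fin (s + 1) → Fin m' => ∃ e, ι e ∈ S ∧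
        ((∃ κ, dec (q 0) = .con κ ∧ HO κ e) ∨ ((∀ κ, dec (q 0) ≠ .con κ) ∧ G (fun β b i l =>
          x (β, b) (finFunctionFinEquiv (Fin.snoc i l)) = true) (fun a => dec (q a)) e)) := by
      refine alt_imp _ _ (fun q hq => ?_) hA
      obtain ⟨l, hl, e, rfl, he⟩ := hq
      exact ⟨e, hl, (hbig _ _).1 he⟩
    -- the constraints
    have hcon : ∀ κ, ∃ e, ι e ∈ S ∧ HO κ e := by
      intro κ
      obtain ⟨c, hc⟩ := hdec (.con κ)
      have h1 := hA1 c
      rw [← alt_const hm' s (∃ e, ι e ∈ S ∧ HO κ e) false]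
      refine alt_imp s false (fun q hq => ?_) h1
      obtain ⟨e, he, ⟨κ', hκ', h2⟩ | ⟨h2, -⟩⟩ := hq
      · rw [Fin.cons_zero, hc] at hκ'
        simp only [Coord.con.injEq] at hκ'
        rw [← hκ'] at h2
        exact ⟨e, he, h2⟩
      · rw [Fin.cons_zero, hc] at h2
        exact absurd rfl (h2 κ)
    obtain ⟨f, hf1, hf2⟩ := transversal ι hι S hS fun γ => hcon (Sum.inl γ)
    obtain ⟨J, β, ρ, rfl⟩ := transversal_tr hf1 fun c b l b' h1 h2 => by
      obtain ⟨e, he, ⟨b'', hb'', rfl⟩ | ⟨l', rfl⟩⟩ := hcon (Sum.inr (c, b'))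
      · have := (hf2 _).1 he
        rw [show grp (.top b'' : Elem k s p m) = none from rfl, h2] at this
        simp only [Elem.top.injEq] at this
        exact absurd this hb''
      · have := (hf2 _).1 he
        rw [show grp (.row c b' l' : Elem k s p m) = some (Sum.inl c) from rfl, h1] at this
        simp only [Elem.row.injEq] at this
        exact this.2.1.symm
    have hST : ∀ e, ι e ∈ S ↔ T J β ρ e := hf2
    have hA2 := (core hm' dec hdec J β ρ (fun β b i l =>
      x (β, b) (finFunctionFinEquiv (Fin.snoc i l)) = true) true (by simpa using hs)).1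
      (alt_imp _ _ (fun q hq => by
        by_cases h0 : ∃ κ, dec (q 0) = .con κ
        · refine G_wrong J β ρ _ _ 0 (fun a' ha' => absurd ha' (Fin.not_lt_zero a'))
            (fun i hi => ?_) (by simpa using hs)
          obtain ⟨κ, hκ⟩ := h0
          rw [hκ] at hi
          simp at hi
        · obtain ⟨e, he, ⟨κ, hκ, -⟩ | ⟨-, h2⟩⟩ := hq
          · exact absurd ⟨κ, hκ⟩ h0
          · exact ⟨e, (hST e).1 he, h2⟩) hA1)
    obtain ⟨S0, hS0, hS0'⟩ := exists_superset_card_eq (s := univ.image ρ) (n := k)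
      (card_image_le.trans (by simp)) (by simpa using hkm)
    refine ⟨(J, β), S0, hS0', alt_imp _ _ (fun i hi => ?_) hA2⟩
    obtain ⟨c, hc⟩ := hi
    exact ⟨ρ c, hS0 (mem_image_of_mem _ (mem_univ _)), hc⟩
  · rintro ⟨⟨J, β⟩, S0, hS0, hA⟩
    set ρ : Fin k → Fin m := fun c => S0.orderEmbOfFin hS0 c with hρ
    have hA2 := (core hm' dec hdec J β ρ (fun β b i l =>
      x (β, b) (finFunctionFinEquiv (Fin.snoc i l)) = true) true (by simpa using hs)).2
      (alt_imp _ _ (fun i hi => by
        obtain ⟨l, hl, hx⟩ := hi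
        have : l ∈ Set.range (S0.orderEmbOfFin hS0) := by
          rw [range_orderEmbOfFin]
          exact hl
        obtain ⟨c, rfl⟩ := this
        exact ⟨c, hx⟩) hA)
    refine ⟨trSet ι J β ρ, card_trSet hι, alt_imp _ _ (fun q hq => ?_) hA2⟩
    by_cases h0 : ∃ κ, dec (q 0) = .con κ
    · obtain ⟨κ, hκ⟩ := h0
      have h1 : ∃ e, T J β ρ e ∧ HO κ e := by
        rcases κ with γ | ⟨c, b'⟩
        · exact ⟨tr J β ρ γ, by rw [T, grp_tr], grp_tr J β ρ γ⟩
        · by_cases hb : β = b'
          · exact ⟨.row c β (ρ c), T_row.2 ⟨rfl, rfl⟩, Or.inr ⟨ρ c, by rw [hb]⟩⟩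
          · exact ⟨.top β, T_top.2 rfl, Or.inl ⟨β, hb, rfl⟩⟩
      obtain ⟨e, he, hH⟩ := h1
      exact ⟨ι e, (mem_trSet hι).2 he, e, rfl, (hbig _ _).2 (Or.inl ⟨κ, hκ, hH⟩)⟩
    · obtain ⟨e, he, hG⟩ := hq
      exact ⟨ι e, (mem_trSet hι).2 he, e, rfl,
        (hbig _ _).2 (Or.inr ⟨fun κ hκ => h0 ⟨κ, hκ⟩, hG⟩)⟩

/-! ### Even `t` -/

/-- The constraints for even `t`. -/
abbrev KE (k s p m : ℕ) := Elem k s p m ⊕ (Fin k × Fin p) ⊕ (Fin k × Fin k × Fin m)

/-- The first alternative of a constraint. -/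
def AE : KE k s p m → Elem k s p m → Prop
  | Sum.inl e0, e => e ≠ e0
  | Sum.inr (Sum.inl (_, b')), e => e ≠ .top b'
  | Sum.inr (Sum.inr (c, _, v)), e => ∀ b, e ≠ .row c b v

/-- The second alternative of a constraint. -/
def BE : KE k s p m → Elem k s p m → Prop
  | Sum.inl e0, e => grp e = grp e0 → e = e0
  | Sum.inr (Sum.inl (c, b')), e => ∀ b l, e = .row c b l → b = b'
  | Sum.inr (Sum.inr (c, c', v)), e => (∀ b, e ≠ .row c' b v) ∨ c = c'

/-- The leaves for a constraint. -/
def cpE (κ : KE k s p m) (q : Fin (s + 1) → Coord (KE k s p m) p m) (e : Elem k s p m) : Prop :=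
  (q 1 = .side true ∧ AE κ e) ∨ (q 1 ≠ .side true ∧ BE κ e)

theorem nsat_even (hs : Even (s + 1)) (hm' : 0 < m') (ι : Elem k s p m → Fin m')
    (hι : Function.Injective ι) (dec : Fin m' → Coord (KE k s p m) p m)
    (hdec : Function.Surjective dec) (x : Cop s p → Fin (m ^ (s + 1 + 1)) → Bool) :
    NSat (s + 1) (m' ^ (s + 1 + 1)) (psi false cpE ι dec x) (k + s + 2) ↔
      ∃ j, NSat (s + 1) (m ^ (s + 1 + 1)) (x j) k := by
  classical
  obtain ⟨s, rfl⟩ : ∃ s', s = s' + 1 := by
    refine ⟨s - 1, ?_⟩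
    rcases Nat.eq_zero_or_pos s with rfl | h
    · simp at hs
    · omega
  simp only [nsat_iff, if_pos hs, psi_val]
  set z : (Fin (s + 1 + 1) → Fin p) → Fin p → (Fin (s + 1 + 1) → Fin m) → Fin m → Prop :=
    fun β b i l => x (β, b) (finFunctionFinEquiv (Fin.snoc i l)) = false with hz
  have hbig : ∀ q e, bigP false cpE x q e ↔ (∃ κ, q 0 = .con κ ∧ cpE κ q e) ∨
      ((∀ κ, q 0 ≠ .con κ) ∧ ¬ G z q (e : Elem k (s + 1) p m)) := by
    intro q e
    unfold bigP
    simp [hz]
  have hfin : (1 : Fin (s + 1 + 1)) = Fin.succ 0 := rfl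
  -- the value of the game
  have hgame : ∀ (J : Fin (s + 1 + 1) → Fin p) (β : Fin p) (ρ : Fin k → Fin m),
      alt (s + 1 + 1) true (fun q : Fin (s + 1 + 1) → Fin m' =>
        ¬ ∃ e, T J β ρ e ∧ G z (fun a => dec (q a)) e) ↔
      alt (s + 1 + 1) true fun i : Fin (s + 1 + 1) → Fin m =>
        ∀ c, x (J, β) (finFunctionFinEquiv (Fin.snoc i (ρ c))) = true := by
    intro J β ρ
    have h1 := core (k := k) hm' dec hdec J β ρ z false (by
      constructor
      · intro h
        simp at h
      · intro h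
        exact absurd hs (Nat.not_even_iff_odd.2 h))
    have h2 := not_congr h1
    rw [alt_not, alt_not] at h2
    rw [show (!false) = true from rfl] at h2
    rw [h2]
    refine alt_congr _ _ fun i => ?_
    simp [hz]
  constructor
  · rintro ⟨S, hS, hA⟩
    -- all elements of `S` are elements
    have hrange : ∀ l ∈ S, ∃ e, ι e = l := by
      rw [← alt_const hm' (s + 1 + 1) (∀ l ∈ S, ∃ e, ι e = l) true]
      refine alt_imp _ _ (fun q hq l hl => ?_) hA
      obtain ⟨e, he, -⟩ := hq l hl
      exact ⟨e, he⟩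
    have hA1 : alt (s + 1 + 1) true fun q : Fin (s + 1 + 1) → Fin m' => ∀ e, ι e ∈ S →
        ((∃ κ, dec (q 0) = .con κ ∧ cpE κ (fun a => dec (q a)) e) ∨
          ((∀ κ, dec (q 0) ≠ .con κ) ∧ ¬ G z (fun a => dec (q a)) e)) := by
      refine alt_imp _ _ (fun q hq e he => ?_) hA
      obtain ⟨e', he', h⟩ := hq _ he
      rw [hι he'] at h
      exact (hbig _ _).1 h
    -- the constraints
    have hcon : ∀ κ, (∀ e, ι e ∈ S → AE κ e) ∨ ∀ e, ι e ∈ S → BE κ e := by
      intro κ
      obtain ⟨c, hc⟩ := hdec (.con κ)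
      obtain ⟨c1, h1⟩ := hA1 c
      have h2 : ∀ (q : Fin s → Fin m') (e : Elem k (s + 1) p m),
          ((∃ κ', dec ((Fin.cons c (Fin.cons c1 q : Fin (s + 1) → Fin m') :
            Fin (s + 1 + 1) → Fin m') 0) = .con κ' ∧
            cpE κ' (fun a => dec ((Fin.cons c (Fin.cons c1 q : Fin (s + 1) → Fin m') :
            Fin (s + 1 + 1) → Fin m') a)) e) ∨
          ((∀ κ', dec ((Fin.cons c (Fin.cons c1 q : Fin (s + 1) → Fin m') :
            Fin (s + 1 + 1) → Fin m') 0) ≠ .con κ') ∧ ¬ G z (fun a => dec ((Fin.cons c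
            (Fin.cons c1 q : Fin (s + 1) → Fin m') : Fin (s + 1 + 1) → Fin m') a)) e)) →
          (dec c1 = .side true ∧ AE κ e) ∨ (dec c1 ≠ .side true ∧ BE κ e) := by
        rintro q e (⟨κ', hκ', h2⟩ | ⟨h2, -⟩)
        · rw [Fin.cons_zero, hc] at hκ'
          simp only [Coord.con.injEq] at hκ'
          subst hκ'
          unfold cpE at h2
          simp only [hfin, Fin.cons_succ, Fin.cons_zero] at h2
          exact h2
        · rw [Fin.cons_zero, hc] at h2
          exact absurd rfl (h2 κ)
      by_cases h3 : dec c1 = .side true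
      · left
        rw [← alt_const hm' s (∀ e, ι e ∈ S → AE κ e) true]
        refine alt_imp s true (fun q hq e he => ?_) h1
        rcases h2 q e (hq e he) with h4 | h4
        · exact h4.2
        · exact absurd h3 h4.1
      · right
        rw [← alt_const hm' s (∀ e, ι e ∈ S → BE κ e) true]
        refine alt_imp s true (fun q hq e he => ?_) h1
        rcases h2 q e (hq e he) with h4 | h4
        · exact absurd h4.1 h3
        · exact h4.2
    -- at most one element in every group
    have hone : ∀ e e' : Elem k (s + 1) p m, ι e ∈ S → ι e' ∈ S → grp e = grp e' → e = e' := by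
      intro e e' he he' h
      rcases hcon (Sum.inl e') with h1 | h1
      · exact absurd rfl (h1 e' he')
      · exact h1 e he h
    have hall : ∀ γ : Grp k (s + 1), ∃ e, ι e ∈ S ∧ grp e = γ := by
      obtain ⟨l0, hl0⟩ : S.Nonempty := card_pos.1 (by omega)
      obtain ⟨e0, -⟩ := hrange l0 hl0
      have : Nonempty (Elem k (s + 1) p m) := ⟨e0⟩
      choose! g hg using hrange
      have hinj : Set.InjOn (fun l => grp (g l)) (S : Set (Fin m')) := by
        intro l hl l' hl' h
        have h1 := hone (g l) (g l') (by rw [hg l hl]; exact hl) (by rw [hg l' hl']; exact hl') h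
        rw [← hg l hl, ← hg l' hl', h1]
      have himg : S.image (fun l => grp (g l)) = univ := by
        refine eq_univ_of_card _ ?_
        rw [card_image_of_injOn hinj, hS]
        simp only [Fintype.card_option, Fintype.card_sum, Fintype.card_fin]
        omega
      intro γ
      have : γ ∈ S.image (fun l => grp (g l)) := by
        rw [himg]
        exact mem_univ _
      obtain ⟨l, hl, h⟩ := mem_image.1 this
      exact ⟨g l, by rw [hg l hl]; exact hl, h⟩
    obtain ⟨f, hf1, hf2⟩ := transversal ι hι S hS hall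
    obtain ⟨J, β, ρ, rfl⟩ := transversal_tr hf1 fun c b l b' h1 h2 => by
      have h3 : ι (.row c b l : Elem k (s + 1) p m) ∈ S := by
        rw [hf2, show grp (.row c b l : Elem k (s + 1) p m) = some (Sum.inl c) from rfl, h1]
      have h4 : ι (.top b' : Elem k (s + 1) p m) ∈ S := by
        rw [hf2, show grp (.top b' : Elem k (s + 1) p m) = none from rfl, h2]
      rcases hcon (Sum.inr (Sum.inl (c, b'))) with h5 | h5
      · exact absurd rfl (h5 _ h4)
      · exact h5 _ h3 b l rfl
    have hST : ∀ e, ι e ∈ S ↔ T J β ρ e := hf2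
    have hρ : Function.Injective ρ := by
      intro c c' hcc
      rcases hcon (Sum.inr (Sum.inr (c, c', ρ c))) with h5 | h5
      · exact absurd rfl (h5 (.row c β (ρ c)) ((hST _).2 (T_row.2 ⟨rfl, rfl⟩)) β)
      · rcases h5 (.row c' β (ρ c')) ((hST _).2 (T_row.2 ⟨rfl, rfl⟩)) with h6 | h6
        · exact absurd (by rw [hcc]) (h6 β)
        · exact h6
    have hA2 : alt (s + 1 + 1) true (fun q : Fin (s + 1 + 1) → Fin m' =>
        ¬ ∃ e, T J β ρ e ∧ G z (fun a => dec (q a)) e) := by
      intro c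
      by_cases h0 : ∃ κ, dec c = .con κ
      · obtain ⟨κ, hκ⟩ := h0
        obtain ⟨c1, hc1⟩ := hdec (.side true)
        refine ⟨c1, alt_imp s true (fun q _ => ?_) ((alt_const hm' s True true).2 trivial)⟩
        refine G_star J β ρ z _ 0 1 (by simp) (fun a' ha' => absurd ha' (Fin.not_lt_zero a'))
          (fun i hi => ?_) ?_ (by simpa using hs)
        · rw [Fin.cons_zero, hκ] at hi
          simp at hi
        · rw [hfin, Fin.cons_succ, Fin.cons_zero]
          exact hc1
      · refine alt_imp _ _ (fun q hq => ?_) (hA1 c)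
        rintro ⟨e, he, hG⟩
        rcases hq e ((hST e).2 he) with ⟨κ, hκ, -⟩ | ⟨-, h2⟩
        · rw [Fin.cons_zero] at hκ
          exact h0 ⟨κ, hκ⟩
        · exact h2 hG
    refine ⟨(J, β), univ.image ρ, ?_, alt_imp _ _ (fun i hi l hl => ?_) ((hgame J β ρ).1 hA2)⟩
    · rw [card_image_of_injective _ hρ, card_univ, Fintype.card_fin]
    · obtain ⟨c, -, rfl⟩ := mem_image.1 hl
      exact hi c
  · rintro ⟨⟨J, β⟩, S0, hS0, hA⟩
    set ρ : Fin k → Fin m := fun c => S0.orderEmbOfFin hS0 c with hρ
    have hρi : Function.Injective ρ := (S0.orderEmbOfFin hS0).injective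
    have hA2 := (hgame J β ρ).2 (alt_imp _ _ (fun i hi c =>
      hi _ (orderEmbOfFin_mem S0 hS0 c)) hA)
    have hcon : ∀ κ : KE k (s + 1) p m, (∀ e, T J β ρ e → AE κ e) ∨ ∀ e, T J β ρ e → BE κ e := by
      rintro (e0 | ⟨c, b'⟩ | ⟨c, c', v⟩)
      · by_cases h : T J β ρ e0
        · right
          intro e he h1
          rw [T] at he h
          rw [he, h, h1]
        · left
          rintro e he rfl
          exact h he
      · by_cases hb : β = b'
        · right
          rintro e he b l rfl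
          rw [(T_row.1 he).1, hb]
        · left
          rintro e he rfl
          exact hb (T_top.1 he).symm
      · by_cases hc : c = c'
        · right
          exact fun e he => Or.inr hc
        · by_cases hv : ρ c = v
          · right
            intro e he
            left
            rintro b rfl
            have := (T_row.1 he).2
            exact hc (hρi (hv.trans this))
          · left
            rintro e he b rfl
            exact hv (T_row.1 he).2.symm
    refine ⟨trSet ι J β ρ, card_trSet hι, fun c => ?_⟩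
    by_cases h0 : ∃ κ, dec c = .con κ
    · obtain ⟨κ, hκ⟩ := h0
      rcases hcon κ with h1 | h1
      · obtain ⟨c1, hc1⟩ := hdec (.side true)
        refine ⟨c1, alt_imp s true (fun q _ l hl => ?_) ((alt_const hm' s True true).2 trivial)⟩
        obtain ⟨e, rfl⟩ := trSet_sub hl
        refine ⟨e, rfl, (hbig _ _).2 (Or.inl ⟨κ, by rw [Fin.cons_zero]; exact hκ, Or.inl ⟨?_,
          h1 e ((mem_trSet hι).1 hl)⟩⟩)⟩
        simp only [hfin, Fin.cons_succ, Fin.cons_zero]
        exact hc1
      · obtain ⟨c1, hc1⟩ := hdec (.side false)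
        refine ⟨c1, alt_imp s true (fun q _ l hl => ?_) ((alt_const hm' s True true).2 trivial)⟩
        obtain ⟨e, rfl⟩ := trSet_sub hl
        refine ⟨e, rfl, (hbig _ _).2 (Or.inl ⟨κ, by rw [Fin.cons_zero]; exact hκ, Or.inr ⟨?_,
          h1 e ((mem_trSet hι).1 hl)⟩⟩)⟩
        simp only [hfin, Fin.cons_succ, Fin.cons_zero, hc1]
        simp
    · refine alt_imp _ _ (fun q hq l hl => ?_) (hA2 c)
      obtain ⟨e, rfl⟩ := trSet_sub hl
      refine ⟨e, rfl, (hbig _ _).2 (Or.inr ⟨fun κ hκ => ?_, fun hG => hq ⟨e,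
        (mem_trSet hι).1 hl, hG⟩⟩)⟩
      rw [Fin.cons_zero] at hκ
      exact h0 ⟨κ, hκ⟩

end Pool.Agent.W74_5f6b2a
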