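import Pool.Agent.W74_5f6b2a.Defs

/-!
A calculus for circuits with few negation gates.
-/

namespace Pool.Agent.W74_5f6b2a

open Finset Pool.Agent.W_MP_5f6b2a_mon

variable {V : Type}

/-- The functions in `𝓕` are computed by a circuit with at most `a` gates, at most `b` of which are
negation gates. -/
def Comp (a b : ℕ) (𝓕 : Set ((V → Bool) → Prop)) : Prop :=
  ∃ (s : ℕ) (B : Finset (Fin s)) (p : Fin s → (V → Bool) → Prop), s ≤ a ∧ B.card ≤ b ∧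
    NegProg B p ∧ ∀ φ ∈ 𝓕, ∃ i, p i = φ

/-- Appending a gate. -/
theorem NegProg.snoc {s : ℕ} {B : Finset (Fin s)} {p : Fin s → (V → Bool) → Prop}
    (hp : NegProg B p) {C : Finset (Fin (s + 1))} (hBC : ∀ i, i ∈ B → Fin.castSucc i ∈ C)
    {q : (V → Bool) → Prop}
    (hq : (∃ v, ∀ x, q x ↔ x v = true) ∨ (∀ x, q x) ∨ (∀ x, ¬ q x) ∨
      (∃ j k, ∀ x, q x ↔ p j x ∧ p k x) ∨ (∃ j k, ∀ x, q x ↔ p j x ∨ p k x) ∨
      (Fin.last s ∈ C ∧ ∃ j, ∀ x, q x ↔ ¬ p j x)) :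
    NegProg C (Fin.snoc (α := fun _ => (V → Bool) → Prop) p q) := by
  intro i
  refine Fin.lastCases ?_ (fun i => ?_) i
  · simp only [Fin.snoc_last]
    rcases hq with h | h | h | ⟨j, k, h⟩ | ⟨j, k, h⟩ | ⟨hC, j, h⟩
    · exact Or.inl h
    · exact Or.inr (Or.inl h)
    · exact Or.inr (Or.inr (Or.inl h))
    · refine Or.inr (Or.inr (Or.inr (Or.inl ⟨j.castSucc, k.castSucc, Fin.castSucc_lt_last j,
        Fin.castSucc_lt_last k, ?_⟩)))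
      simpa only [Fin.snoc_castSucc] using h
    · refine Or.inr (Or.inr (Or.inr (Or.inr (Or.inl ⟨j.castSucc, k.castSucc, Fin.castSucc_lt_last j,
        Fin.castSucc_lt_last k, ?_⟩))))
      simpa only [Fin.snoc_castSucc] using h
    · refine Or.inr (Or.inr (Or.inr (Or.inr (Or.inr ⟨hC, j.castSucc, Fin.castSucc_lt_last j, ?_⟩))))
      simpa only [Fin.snoc_castSucc] using h
  · simp only [Fin.snoc_castSucc]
    rcases hp i with h | h | h | ⟨j, k, hj, hk, h⟩ | ⟨j, k, hj, hk, h⟩ | ⟨hB, j, hj, h⟩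
    · exact Or.inl h
    · exact Or.inr (Or.inl h)
    · exact Or.inr (Or.inr (Or.inl h))
    · refine Or.inr (Or.inr (Or.inr (Or.inl ⟨j.castSucc, k.castSucc,
        Fin.castSucc_lt_castSucc_iff.2 hj, Fin.castSucc_lt_castSucc_iff.2 hk, ?_⟩)))
      simpa only [Fin.snoc_castSucc] using h
    · refine Or.inr (Or.inr (Or.inr (Or.inr (Or.inl ⟨j.castSucc, k.castSucc,
        Fin.castSucc_lt_castSucc_iff.2 hj, Fin.castSucc_lt_castSucc_iff.2 hk, ?_⟩))))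
      simpa only [Fin.snoc_castSucc] using h
    · refine Or.inr (Or.inr (Or.inr (Or.inr (Or.inr ⟨hBC i hB, j.castSucc,
        Fin.castSucc_lt_castSucc_iff.2 hj, ?_⟩))))
      simpa only [Fin.snoc_castSucc] using h

/-- From the functions in `𝓕` one can compute those in `𝓖` with `a` additional gates, `b` of which
are negation gates. -/
def Ext (a b : ℕ) (𝓕 𝓖 : Set ((V → Bool) → Prop)) : Prop :=
  ∀ a' b' 𝓗, 𝓕 ⊆ 𝓗 → Comp a' b' 𝓗 → Comp (a' + a) (b' + b) (𝓗 ∪ 𝓖)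

theorem Comp.weaken {a b a' b' : ℕ} {𝓕 𝓖 : Set ((V → Bool) → Prop)} (h : Comp a b 𝓕)
    (ha : a ≤ a') (hb : b ≤ b') (hF : 𝓖 ⊆ 𝓕) : Comp a' b' 𝓖 := by
  obtain ⟨s, B, p, h1, h2, h3, h4⟩ := h
  exact ⟨s, B, p, h1.trans ha, h2.trans hb, h3, fun φ hφ => h4 φ (hF hφ)⟩

/-- One more gate. -/
theorem Comp.step {a b : ℕ} {𝓕 : Set ((V → Bool) → Prop)} (h : Comp a b 𝓕)
    {q : (V → Bool) → Prop}
    (hq : (∃ v, ∀ x, q x ↔ x v = true) ∨ (∀ x, q x) ∨ (∀ x, ¬ q x) ∨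
      (∃ φ ∈ 𝓕, ∃ ψ ∈ 𝓕, ∀ x, q x ↔ φ x ∧ ψ x) ∨ (∃ φ ∈ 𝓕, ∃ ψ ∈ 𝓕, ∀ x, q x ↔ φ x ∨ ψ x)) :
    Comp (a + 1) b (𝓕 ∪ {q}) := by
  obtain ⟨s, B, p, h1, h2, h3, h4⟩ := h
  refine ⟨s + 1, B.map Fin.castSuccEmb, Fin.snoc (α := fun _ => (V → Bool) → Prop) p q,
    by omega, by rwa [card_map], h3.snoc (fun i hi => ?_) ?_, ?_⟩
  · exact mem_map_of_mem Fin.castSuccEmb hi
  · rcases hq with h | h | h | ⟨φ, hφ, ψ, hψ, h⟩ | ⟨φ, hφ, ψ, hψ, h⟩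
    · exact Or.inl h
    · exact Or.inr (Or.inl h)
    · exact Or.inr (Or.inr (Or.inl h))
    · obtain ⟨j, rfl⟩ := h4 φ hφ
      obtain ⟨k, rfl⟩ := h4 ψ hψ
      exact Or.inr (Or.inr (Or.inr (Or.inl ⟨j, k, h⟩)))
    · obtain ⟨j, rfl⟩ := h4 φ hφ
      obtain ⟨k, rfl⟩ := h4 ψ hψ
      exact Or.inr (Or.inr (Or.inr (Or.inr (Or.inl ⟨j, k, h⟩))))
  · rintro φ (hφ | hφ)
    · obtain ⟨j, rfl⟩ := h4 φ hφ
      exact ⟨j.castSucc, Fin.snoc_castSucc (α := fun _ => (V → Bool) → Prop) _ _ j⟩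
    · rw [Set.mem_singleton_iff.1 hφ]
      exact ⟨Fin.last s, Fin.snoc_last (α := fun _ => (V → Bool) → Prop) _ _⟩

/-- One more negation gate. -/
theorem Comp.neg {a b : ℕ} {𝓕 : Set ((V → Bool) → Prop)} (h : Comp a b 𝓕)
    {φ : (V → Bool) → Prop} (hφ : φ ∈ 𝓕) : Comp (a + 1) (b + 1) (𝓕 ∪ {fun x => ¬ φ x}) := by
  obtain ⟨s, B, p, h1, h2, h3, h4⟩ := h
  refine ⟨s + 1, insert (Fin.last s) (B.map Fin.castSuccEmb),
    Fin.snoc (α := fun _ => (V → Bool) → Prop) p fun x => ¬ φ x,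
    by omega, ?_, h3.snoc (fun i hi => ?_) ?_, ?_⟩
  · refine (card_insert_le _ _).trans ?_
    rw [card_map]
    omega
  · exact mem_insert_of_mem (mem_map_of_mem Fin.castSuccEmb hi)
  · obtain ⟨j, rfl⟩ := h4 φ hφ
    exact Or.inr (Or.inr (Or.inr (Or.inr (Or.inr ⟨mem_insert_self _ _, j, fun x => Iff.rfl⟩))))
  · rintro ψ (hψ | hψ)
    · obtain ⟨j, rfl⟩ := h4 ψ hψ
      exact ⟨j.castSucc, Fin.snoc_castSucc (α := fun _ => (V → Bool) → Prop) _ _ j⟩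
    · rw [Set.mem_singleton_iff.1 hψ]
      exact ⟨Fin.last s, Fin.snoc_last (α := fun _ => (V → Bool) → Prop) _ _⟩

theorem Ext.of_subset {𝓕 𝓖 : Set ((V → Bool) → Prop)} (h : 𝓖 ⊆ 𝓕) : Ext 0 0 𝓕 𝓖 := by
  intro a' b' 𝓗 h1 h2
  exact h2.weaken le_rfl le_rfl (Set.union_subset subset_rfl (h.trans h1))

theorem Ext.weaken {a b a' b' : ℕ} {𝓕 𝓖 𝓕' 𝓖' : Set ((V → Bool) → Prop)} (h : Ext a b 𝓕 𝓖)
    (ha : a ≤ a') (hb : b ≤ b') (hF : 𝓕 ⊆ 𝓕') (hG : 𝓖' ⊆ 𝓖) : Ext a' b' 𝓕' 𝓖' := by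
  intro a'' b'' 𝓗 h1 h2
  exact (h a'' b'' 𝓗 (hF.trans h1) h2).weaken (by omega) (by omega)
    (Set.union_subset_union_right _ hG)

theorem Ext.trans {a b a' b' : ℕ} {𝓕 𝓖 𝓗 : Set ((V → Bool) → Prop)} (h : Ext a b 𝓕 𝓖)
    (h' : Ext a' b' (𝓕 ∪ 𝓖) 𝓗) : Ext (a + a') (b + b') 𝓕 (𝓖 ∪ 𝓗) := by
  intro a'' b'' 𝓘 h1 h2
  have h3 := h' _ _ _ (Set.union_subset_union_left _ h1) (h a'' b'' 𝓘 h1 h2)
  exact h3.weaken (by omega) (by omega) (by rw [Set.union_assoc])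

theorem Ext.tru (𝓕 : Set ((V → Bool) → Prop)) : Ext 1 0 𝓕 {fun _ => True} :=
  fun _ _ _ _ h => h.step (Or.inr (Or.inl fun _ => trivial))

theorem Ext.fls (𝓕 : Set ((V → Bool) → Prop)) : Ext 1 0 𝓕 {fun _ => False} :=
  fun _ _ _ _ h => h.step (Or.inr (Or.inr (Or.inl fun _ => id)))

theorem Ext.var (𝓕 : Set ((V → Bool) → Prop)) (v : V) : Ext 1 0 𝓕 {fun x => x v = true} :=
  fun _ _ _ _ h => h.step (Or.inl ⟨v, fun _ => Iff.rfl⟩)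

theorem Ext.and {𝓕 : Set ((V → Bool) → Prop)} {φ ψ : (V → Bool) → Prop} (hφ : φ ∈ 𝓕)
    (hψ : ψ ∈ 𝓕) : Ext 1 0 𝓕 {fun x => φ x ∧ ψ x} :=
  fun _ _ _ h1 h => h.step (Or.inr (Or.inr (Or.inr (Or.inl
    ⟨φ, h1 hφ, ψ, h1 hψ, fun _ => Iff.rfl⟩))))

theorem Ext.or {𝓕 : Set ((V → Bool) → Prop)} {φ ψ : (V → Bool) → Prop} (hφ : φ ∈ 𝓕)
    (hψ : ψ ∈ 𝓕) : Ext 1 0 𝓕 {fun x => φ x ∨ ψ x} :=
  fun _ _ _ h1 h => h.step (Or.inr (Or.inr (Or.inr (Or.inr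
    ⟨φ, h1 hφ, ψ, h1 hψ, fun _ => Iff.rfl⟩))))

theorem Ext.neg {𝓕 : Set ((V → Bool) → Prop)} {φ : (V → Bool) → Prop} (hφ : φ ∈ 𝓕) :
    Ext 1 1 𝓕 {fun x => ¬ φ x} :=
  fun _ _ _ h1 h => h.neg (h1 hφ)

/-- A sequence of extensions. -/
theorem Ext.seq {a b : ℕ} {𝓕 : Set ((V → Bool) → Prop)} (𝓖 : ℕ → Set ((V → Bool) → Prop)) (m : ℕ)
    (h : ∀ i < m, Ext a b (𝓕 ∪ {φ | ∃ j < i, φ ∈ 𝓖 j}) (𝓖 i)) :
    Ext (m * a) (m * b) 𝓕 {φ | ∃ j < m, φ ∈ 𝓖 j} := by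
  induction m with
  | zero =>
    refine (Ext.of_subset (Set.empty_subset _)).weaken (by omega) (by omega) subset_rfl ?_
    rintro φ ⟨j, hj, _⟩
    exact absurd hj (Nat.not_lt_zero _)
  | succ m ih =>
    refine ((ih fun i hi => h i (by omega)).trans (h m (Nat.lt_succ_self m))).weaken ?_ ?_
      subset_rfl ?_
    · rw [Nat.succ_mul]
    · rw [Nat.succ_mul]
    · rintro φ ⟨j, hj, hφ⟩
      rcases Nat.lt_succ_iff_lt_or_eq.1 hj with hj | rfl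
      · exact Or.inl ⟨j, hj, hφ⟩
      · exact Or.inr hφ

/-- Independent extensions. -/
theorem Ext.par {a b : ℕ} {𝓕 : Set ((V → Bool) → Prop)} (𝓖 : ℕ → Set ((V → Bool) → Prop)) (m : ℕ)
    (h : ∀ i < m, Ext a b 𝓕 (𝓖 i)) : Ext (m * a) (m * b) 𝓕 {φ | ∃ j < m, φ ∈ 𝓖 j} :=
  Ext.seq 𝓖 m fun i hi => (h i hi).weaken le_rfl le_rfl Set.subset_union_left subset_rfl

theorem Comp.empty : Comp 0 0 (∅ : Set ((V → Bool) → Prop)) :=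
  ⟨0, ∅, fun i => i.elim0, le_rfl, le_rfl, fun i => i.elim0, fun φ hφ => absurd hφ (Set.notMem_empty φ)⟩

theorem Ext.comp {a b : ℕ} {𝓖 : Set ((V → Bool) → Prop)} (h : Ext a b ∅ 𝓖) : Comp a b 𝓖 :=
  (h 0 0 ∅ subset_rfl Comp.empty).weaken (by omega) (by omega) Set.subset_union_right

end Pool.Agent.W74_5f6b2a
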