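import Pool.Agent.W74_5f6b2a.Ext

/-!
The theorem of Markov and Fischer: `r` negation gates suffice if `n + 1 ≤ 2 ^ r`.
-/

namespace Pool.Agent.W74_5f6b2a

open Finset Pool.Agent.W_MP_5f6b2a_mon

/-- Inverting a decreasing sequence of `2 ^ r - 1` functions with `r` negation gates. -/
theorem inverter {V : Type} (r : ℕ) : ∀ (z : ℕ → (V → Bool) → Prop)
    (_ : ∀ j x, z (j + 1) x → z j x) (𝓕 : Set ((V → Bool) → Prop))
    (_ : ∀ j, 1 ≤ j → j < 2 ^ r → z j ∈ 𝓕),
    Ext (5 * 2 ^ r) r 𝓕 {φ | ∃ j < 2 ^ r, 1 ≤ j ∧ φ = fun x => ¬ z j x} := by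
  induction r with
  | zero =>
    intro z _ 𝓕 _
    refine (Ext.of_subset (Set.empty_subset _)).weaken (Nat.zero_le _) le_rfl subset_rfl ?_
    rintro φ ⟨j, hj, hj', _⟩
    simp at hj
    omega
  | succ r ih =>
    intro z hz 𝓕 hF
    have hdec : ∀ i j x, i ≤ j → z j x → z i x := by
      intro i j x hij
      induction j, hij using Nat.le_induction with
      | base => exact id
      | succ j _ ih => exact fun h => ih (hz j x h)
    set h := 2 ^ r with hh
    have hpos : 1 ≤ h := Nat.one_le_two_pow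
    have h2 : 2 ^ (r + 1) = h + h := by rw [pow_succ]; omega
    set u : (V → Bool) → Prop := fun x => ¬ z h x with hu
    set w : ℕ → (V → Bool) → Prop := fun j x => (z j x ∧ u x) ∨ z (h + j) x with hw
    have hwdec : ∀ j x, w (j + 1) x → w j x := by
      rintro j x (⟨h1, h3⟩ | h1)
      · exact Or.inl ⟨hz j x h1, h3⟩
      · exact Or.inr (hz (h + j) x h1)
    -- the first negation gate
    have e1 : Ext 1 1 𝓕 {u} := Ext.neg (hF h hpos (by omega))
    -- the sequence `w`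
    have e2 : Ext (h * 2) 0 (𝓕 ∪ {u}) {φ | ∃ j < h, φ ∈ {ψ | 1 ≤ j ∧ ψ = w j}} := by
      refine (Ext.par (a := 2) (b := 0) (fun j => {ψ | 1 ≤ j ∧ ψ = w j}) h fun j hj => ?_).weaken
        le_rfl (by omega) subset_rfl subset_rfl
      by_cases hj1 : 1 ≤ j
      · have e3 : Ext 1 0 (𝓕 ∪ {u}) {fun x => z j x ∧ u x} :=
          Ext.and (Or.inl (hF j hj1 (by omega))) (Or.inr rfl)
        have e4 : Ext 1 0 (𝓕 ∪ {u} ∪ {fun x => z j x ∧ u x})
            {fun x => (z j x ∧ u x) ∨ z (h + j) x} :=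
          Ext.or (φ := fun x => z j x ∧ u x) (Or.inr rfl)
            (Or.inl (Or.inl (hF (h + j) (by omega) (by omega))))
        refine (e3.trans e4).weaken le_rfl le_rfl subset_rfl ?_
        rintro ψ ⟨-, rfl⟩
        exact Or.inr rfl
      · refine (Ext.of_subset (Set.empty_subset _)).weaken (by omega) le_rfl subset_rfl ?_
        rintro ψ ⟨h1, -⟩
        exact absurd h1 hj1
    -- the negations of the sequence `w`
    have e3 : Ext (5 * h) r (𝓕 ∪ {u} ∪ {φ | ∃ j < h, φ ∈ {ψ | 1 ≤ j ∧ ψ = w j}})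
        {φ | ∃ j < h, 1 ≤ j ∧ φ = fun x => ¬ w j x} :=
      ih w hwdec _ fun j hj1 hj2 => Or.inr ⟨j, hj2, hj1, rfl⟩
    -- the negations of the sequence `z`
    have e4 : Ext (h * 2) 0 (𝓕 ∪ {u} ∪ {φ | ∃ j < h, 1 ≤ j ∧ φ = fun x => ¬ w j x})
        {φ | ∃ j < h, φ ∈ {ψ | 1 ≤ j ∧ (ψ = (fun x => ¬ z j x) ∨ ψ = fun x => ¬ z (h + j) x)}} := by
      refine (Ext.par (a := 2) (b := 0) (fun j => {ψ | 1 ≤ j ∧ (ψ = (fun x => ¬ z j x) ∨
        ψ = fun x => ¬ z (h + j) x)}) h fun j hj => ?_).weaken le_rfl (by omega) subset_rfl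
        subset_rfl
      by_cases hj1 : 1 ≤ j
      · have hu1 : u ∈ 𝓕 ∪ {u} ∪ {φ | ∃ j < h, 1 ≤ j ∧ φ = fun x => ¬ w j x} :=
          Or.inl (Or.inr rfl)
        have hw1 : (fun x => ¬ w j x) ∈
            𝓕 ∪ {u} ∪ {φ | ∃ j < h, 1 ≤ j ∧ φ = fun x => ¬ w j x} :=
          Or.inr ⟨j, hj, hj1, rfl⟩
        have e5 := Ext.and hu1 hw1
        have e6 := Ext.or hu1 hw1
        refine (e5.trans (e6.weaken le_rfl le_rfl Set.subset_union_left subset_rfl)).weaken
          le_rfl le_rfl subset_rfl ?_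
        rintro ψ ⟨-, rfl | rfl⟩
        · refine Or.inl ?_
          rw [Set.mem_singleton_iff]
          funext x
          apply propext
          simp only [hw, hu]
          constructor
          · intro h1
            refine ⟨fun h3 => h1 (hdec j h x (by omega) h3), ?_⟩
            rintro (⟨h3, -⟩ | h3)
            · exact h1 h3
            · exact h1 (hdec j (h + j) x (by omega) h3)
          · rintro ⟨h1, h3⟩ h4
            exact h3 (Or.inl ⟨h4, h1⟩)
        · refine Or.inr ?_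
          rw [Set.mem_singleton_iff]
          funext x
          apply propext
          simp only [hw, hu]
          constructor
          · intro h1
            by_cases h3 : z h x
            · refine Or.inr ?_
              rintro (⟨-, h4⟩ | h4)
              · exact h4 h3
              · exact h1 h4
            · exact Or.inl h3
          · rintro (h1 | h1) h3
            · exact h1 (hdec h (h + j) x (by omega) h3)
            · exact h1 (Or.inr h3)
      · refine (Ext.of_subset (Set.empty_subset _)).weaken (by omega) le_rfl subset_rfl ?_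
        rintro ψ ⟨h1, -⟩
        exact absurd h1 hj1
    have e5 := (e1.trans (e2.trans (e3.trans (e4.weaken le_rfl le_rfl (𝓕' := 𝓕 ∪ {u} ∪
      {φ | ∃ j < h, φ ∈ {ψ | 1 ≤ j ∧ ψ = w j}} ∪ {φ | ∃ j < h, 1 ≤ j ∧ φ = fun x => ¬ w j x}) (by
        rintro φ (h1 | h1)
        · exact Or.inl (Or.inl h1)
        · exact Or.inr h1) subset_rfl))))
    refine e5.weaken (by omega) (by omega) subset_rfl ?_
    rintro φ ⟨j, hj, hj1, rfl⟩
    rcases lt_trichotomy j h with h3 | rfl | h3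
    · exact Or.inr (Or.inr (Or.inr ⟨j, h3, hj1, Or.inl rfl⟩))
    · exact Or.inl rfl
    · obtain ⟨i, rfl⟩ : ∃ i, j = h + i := ⟨j - h, by omega⟩
      exact Or.inr (Or.inr (Or.inr ⟨i, by omega, by omega, Or.inr rfl⟩))

variable {n : ℕ}

/-- The number of ones among the first `i` bits without the bit `v`. -/
def cnt (v i : ℕ) (x : Fin n → Bool) : ℕ :=
  (univ.filter fun u : Fin n => (u : ℕ) < i ∧ (u : ℕ) ≠ v ∧ x u = true).card

theorem cnt_zero (v : ℕ) (x : Fin n → Bool) : cnt v 0 x = 0 := by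
  unfold cnt
  simp

theorem cnt_succ (v : ℕ) (i : Fin n) (x : Fin n → Bool) :
    cnt v (i + 1) x = cnt v i x + if (i : ℕ) ≠ v ∧ x i = true then 1 else 0 := by
  unfold cnt
  by_cases h : (i : ℕ) ≠ v ∧ x i = true
  · rw [if_pos h]
    have : (univ.filter fun u : Fin n => (u : ℕ) < i + 1 ∧ (u : ℕ) ≠ v ∧ x u = true) =
        insert i (univ.filter fun u : Fin n => (u : ℕ) < i ∧ (u : ℕ) ≠ v ∧ x u = true) := by
      ext u
      simp only [mem_filter, mem_univ, true_and, mem_insert]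
      constructor
      · rintro ⟨h1, h2⟩
        rcases Nat.lt_succ_iff_lt_or_eq.1 h1 with h3 | h3
        · exact Or.inr ⟨h3, h2⟩
        · exact Or.inl (Fin.ext h3)
      · rintro (rfl | ⟨h1, h2⟩)
        · exact ⟨Nat.lt_succ_self _, h⟩
        · exact ⟨Nat.lt_succ_of_lt h1, h2⟩
    rw [this, card_insert_of_notMem (by simp)]
  · rw [if_neg h, add_zero]
    congr 1
    ext u
    simp only [mem_filter, mem_univ, true_and]
    constructor
    · rintro ⟨h1, h2⟩
      rcases Nat.lt_succ_iff_lt_or_eq.1 h1 with h3 | h3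
      · exact ⟨h3, h2⟩
      · rw [show u = i from Fin.ext h3] at h2
        exact absurd h2 h
    · exact fun ⟨h1, h2⟩ => ⟨Nat.lt_succ_of_lt h1, h2⟩

theorem cnt_le (v i : ℕ) (x : Fin n → Bool) : cnt v i x ≤ n := by
  unfold cnt
  exact (card_le_univ _).trans (by simp)

/-- Omitting the bit `v`. -/
theorem cnt_omit (v : Fin n) (x : Fin n → Bool) :
    cnt n n x = cnt (v : ℕ) n x + if x v = true then 1 else 0 := by
  unfold cnt
  by_cases h : x v = true
  · rw [if_pos h]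
    have : (univ.filter fun u : Fin n => (u : ℕ) < n ∧ (u : ℕ) ≠ n ∧ x u = true) =
        insert v (univ.filter fun u : Fin n => (u : ℕ) < n ∧ (u : ℕ) ≠ v ∧ x u = true) := by
      ext u
      simp only [mem_filter, mem_univ, true_and, mem_insert]
      constructor
      · rintro ⟨h1, _, h2⟩
        by_cases h3 : (u : ℕ) = v
        · exact Or.inl (Fin.ext h3)
        · exact Or.inr ⟨h1, h3, h2⟩
      · rintro (rfl | ⟨h1, _, h2⟩)
        · exact ⟨u.2, ne_of_lt u.2, h⟩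
        · exact ⟨h1, ne_of_lt h1, h2⟩
    rw [this, card_insert_of_notMem (by simp)]
  · rw [if_neg h, add_zero]
    congr 1
    ext u
    simp only [mem_filter, mem_univ, true_and]
    constructor
    · rintro ⟨h1, _, h2⟩
      refine ⟨h1, fun h3 => ?_, h2⟩
      rw [show u = v from Fin.ext h3] at h2
      exact h h2
    · exact fun ⟨h1, _, h2⟩ => ⟨h1, ne_of_lt h1, h2⟩

/-- The variables. -/
def vars (n : ℕ) : Set ((Fin n → Bool) → Prop) := {φ | ∃ v, φ = fun x => x v = true}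

theorem ext_vars : Ext n 0 ∅ (vars n) := by
  refine (Ext.par (a := 1) (b := 0) (fun i => {φ | ∃ h : i < n, φ = fun x => x ⟨i, h⟩ = true}) n
    fun i hi => ?_).weaken (by omega) (by omega) subset_rfl ?_
  · refine (Ext.var _ ⟨i, hi⟩).weaken le_rfl le_rfl subset_rfl ?_
    rintro φ ⟨_, rfl⟩
    rfl
  · rintro φ ⟨v, rfl⟩
    exact ⟨v, v.2, v.2, rfl⟩

/-- The threshold functions. -/
def thr (n J : ℕ) : Set ((Fin n → Bool) → Prop) :=
  {φ | ∃ v < n + 1, ∃ i < n + 1, ∃ j < J, φ = fun x => j ≤ cnt v i x}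

theorem ext_thr (J : ℕ) : Ext ((n + 1) * ((n + 1) * (J * 2))) 0 (vars n) (thr n J) := by
  refine (Ext.par (a := (n + 1) * (J * 2)) (b := 0)
    (fun v => {φ | ∃ i < n + 1, ∃ j < J, φ = fun x => j ≤ cnt v i x}) (n + 1)
    fun v _ => ?_).weaken le_rfl (by omega) subset_rfl ?_
  swap
  · rintro φ ⟨v, hv, i, hi, j, hj, rfl⟩
    exact ⟨v, hv, i, hi, j, hj, rfl⟩
  refine (Ext.seq (a := J * 2) (b := 0) (fun i => {φ | ∃ j < J, φ = fun x => j ≤ cnt v i x}) (n + 1)
    fun i hi => ?_).weaken le_rfl (by omega) subset_rfl ?_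
  swap
  · rintro φ ⟨i, hi, j, hj, rfl⟩
    exact ⟨i, hi, j, hj, rfl⟩
  refine (Ext.par (a := 2) (b := 0) (fun j => {φ | φ = fun x => j ≤ cnt v i x}) J
    fun j hj => ?_).weaken le_rfl (by omega) subset_rfl ?_
  swap
  · rintro φ ⟨j, hj, rfl⟩
    exact ⟨j, hj, rfl⟩
  rcases Nat.eq_zero_or_pos j with rfl | hj0
  · refine (Ext.tru _).weaken (by omega) le_rfl subset_rfl ?_
    rintro φ rfl
    rw [Set.mem_singleton_iff]
    funext x
    exact propext (iff_of_true (Nat.zero_le _) trivial)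
  · rcases Nat.eq_zero_or_pos i with rfl | hi0
    · refine (Ext.fls _).weaken (by omega) le_rfl subset_rfl ?_
      rintro φ rfl
      rw [Set.mem_singleton_iff]
      funext x
      rw [cnt_zero]
      exact propext (iff_of_false (by omega) id)
    · obtain ⟨i, rfl⟩ : ∃ i', i = i' + 1 := ⟨i - 1, by omega⟩
      obtain ⟨j, rfl⟩ : ∃ j', j = j' + 1 := ⟨j - 1, by omega⟩
      have hin : i < n := by omega
      set 𝓕 : Set ((Fin n → Bool) → Prop) := vars n ∪ {φ | ∃ i' < i + 1,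
        φ ∈ {φ | ∃ j < J, φ = fun x => j ≤ cnt v i' x}} with hF
      have h1 : (fun x => j + 1 ≤ cnt v i x) ∈ 𝓕 :=
        Or.inr ⟨i, Nat.lt_succ_self i, j + 1, hj, rfl⟩
      have h2 : (fun x => j ≤ cnt v i x) ∈ 𝓕 :=
        Or.inr ⟨i, Nat.lt_succ_self i, j, by omega, rfl⟩
      have h3 : (fun x : Fin n → Bool => x ⟨i, hin⟩ = true) ∈ 𝓕 := Or.inl ⟨⟨i, hin⟩, rfl⟩
      by_cases hv : i = v
      · refine (Ext.of_subset (𝓕 := 𝓕) (𝓖 := {fun x => j + 1 ≤ cnt v i x}) ?_).weaken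
          (by omega) le_rfl subset_rfl ?_
        · exact Set.singleton_subset_iff.2 h1
        · rintro φ rfl
          rw [Set.mem_singleton_iff]
          funext x
          have := cnt_succ v ⟨i, hin⟩ x
          rw [if_neg (by simp [hv])] at this
          rw [show cnt v (i + 1) x = cnt v i x from this]
      · have e1 := Ext.and h2 h3
        have e2 := Ext.or (𝓕 := 𝓕 ∪ {fun x => j ≤ cnt v i x ∧ x ⟨i, hin⟩ = true}) (Or.inl h1)
          (Or.inr rfl)
        refine (e1.trans e2).weaken le_rfl le_rfl subset_rfl ?_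
        rintro φ rfl
        refine Or.inr ?_
        rw [Set.mem_singleton_iff]
        funext x
        have := cnt_succ v ⟨i, hin⟩ x
        apply propext
        rw [show cnt v (i + 1) x = cnt v i x + _ from this]
        by_cases hx : x ⟨i, hin⟩ = true
        · simp only [hx, and_true]
          rw [if_pos hv]
          omega
        · simp only [hx]
          simp

/-- The negated variables. -/
def nvars (n : ℕ) : Set ((Fin n → Bool) → Prop) := {φ | ∃ v, φ = fun x => ¬ x v = true}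

theorem ext_nvars {J r : ℕ} (hJ : n < J) (hr : n < 2 ^ r) (𝓕 : Set ((Fin n → Bool) → Prop))
    (h1 : thr n J ⊆ 𝓕)
    (h2 : ∀ j < 2 ^ r, 1 ≤ j → (fun x => ¬ j ≤ cnt n n x) ∈ 𝓕) :
    Ext (n * ((n + 1) * 2)) 0 𝓕 (nvars n) := by
  refine (Ext.par (a := (n + 1) * 2) (b := 0) (fun v => {φ | ∃ h : v < n, φ = fun x =>
    ¬ x ⟨v, h⟩ = true}) n fun v hv => ?_).weaken le_rfl (by omega) subset_rfl ?_
  swap
  · rintro φ ⟨v, rfl⟩
    exact ⟨v, v.2, v.2, rfl⟩
  refine (Ext.seq (a := 2) (b := 0) (fun m => {φ | φ = fun x => ∀ j, 1 ≤ j → j ≤ m →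
    (j ≤ cnt v n x ∨ ¬ j ≤ cnt n n x)}) (n + 1) fun m hm => ?_).weaken le_rfl (by omega)
    subset_rfl ?_
  · rcases Nat.eq_zero_or_pos m with rfl | hm0
    · refine (Ext.tru _).weaken (by omega) le_rfl subset_rfl ?_
      rintro φ rfl
      rw [Set.mem_singleton_iff]
      funext x
      exact propext (iff_of_true (fun j h3 h4 => by omega) trivial)
    · obtain ⟨m, rfl⟩ : ∃ m', m = m' + 1 := ⟨m - 1, by omega⟩
      set 𝓖 : Set ((Fin n → Bool) → Prop) := 𝓕 ∪ {φ | ∃ j < m + 1, φ ∈ {φ | φ = fun x => ∀ i,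
        1 ≤ i → i ≤ j → (i ≤ cnt v n x ∨ ¬ i ≤ cnt n n x)}} with hG
      have h3 : (fun x => m + 1 ≤ cnt v n x) ∈ 𝓖 :=
        Or.inl (h1 ⟨v, by omega, n, by omega, m + 1, by omega, rfl⟩)
      have h4 : (fun x => ¬ m + 1 ≤ cnt n n x) ∈ 𝓖 :=
        Or.inl (h2 (m + 1) (by omega) (by omega))
      have h5 : (fun x => ∀ i, 1 ≤ i → i ≤ m → (i ≤ cnt v n x ∨ ¬ i ≤ cnt n n x)) ∈ 𝓖 :=
        Or.inr ⟨m, Nat.lt_succ_self m, rfl⟩
      have e1 := Ext.or h3 h4
      have e2 := Ext.and (𝓕 := 𝓖 ∪ {fun x => m + 1 ≤ cnt v n x ∨ ¬ m + 1 ≤ cnt n n x})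
        (Or.inl h5) (Or.inr rfl)
      refine (e1.trans e2).weaken le_rfl le_rfl subset_rfl ?_
      rintro φ rfl
      refine Or.inr ?_
      rw [Set.mem_singleton_iff]
      funext x
      apply propext
      constructor
      · exact fun h => ⟨fun i h6 h7 => h i h6 (by omega), h (m + 1) (by omega) le_rfl⟩
      · rintro ⟨h6, h7⟩ i h8 h9
        rcases Nat.le_succ_iff.1 h9 with h10 | rfl
        · exact h6 i h8 h10
        · exact h7
  · rintro φ ⟨_, rfl⟩
    refine ⟨n, Nat.lt_succ_self n, ?_⟩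
    funext x
    have h3 := cnt_omit ⟨v, hv⟩ x
    apply propext
    constructor
    · intro h4 j _ _
      rw [if_neg h4, add_zero] at h3
      rw [h3]
      exact em _
    · intro h4 h5
      rw [if_pos h5] at h3
      have h6 := h4 (cnt n n x) (by omega) (cnt_le _ _ _)
      simp only at h3
      rcases h6 with h6 | h6
      · omega
      · exact h6 le_rfl

/-- Simulation of a circuit without further negation gates if the negated variables are
available. -/
theorem ext_double {s : ℕ} {p : Fin s → (Fin n → Bool) → Prop} (hp : NegProg univ p)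
    (𝓕 : Set ((Fin n → Bool) → Prop)) (h1 : vars n ⊆ 𝓕) (h2 : nvars n ⊆ 𝓕) :
    Ext (s * 2) 0 𝓕 {φ | ∃ i, φ = p i} := by
  refine (Ext.seq (a := 2) (b := 0) (fun i => {φ | ∃ h : i < s, φ = p ⟨i, h⟩ ∨
    φ = fun x => ¬ p ⟨i, h⟩ x}) s fun i hi => ?_).weaken le_rfl (by omega) subset_rfl ?_
  swap
  · rintro φ ⟨i, rfl⟩
    exact ⟨i, i.2, i.2, Or.inl rfl⟩
  set 𝓖 : Set ((Fin n → Bool) → Prop) := 𝓕 ∪ {φ | ∃ j < i, φ ∈ {φ | ∃ h : j < s,
    φ = p ⟨j, h⟩ ∨ φ = fun x => ¬ p ⟨j, h⟩ x}} with hG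
  have key : ∀ j : Fin s, j < ⟨i, hi⟩ → p j ∈ 𝓖 ∧ (fun x => ¬ p j x) ∈ 𝓖 := fun j hj =>
    ⟨Or.inr ⟨j, hj, j.2, Or.inl rfl⟩, Or.inr ⟨j, hj, j.2, Or.inr rfl⟩⟩
  have fin : ∀ {φ ψ : (Fin n → Bool) → Prop}, Ext 2 0 𝓖 {ρ | ρ = φ ∨ ρ = ψ} →
      p ⟨i, hi⟩ = φ → (fun x => ¬ p ⟨i, hi⟩ x) = ψ →
      Ext 2 0 𝓖 {φ | ∃ h : i < s, φ = p ⟨i, h⟩ ∨ φ = fun x => ¬ p ⟨i, h⟩ x} := by
    rintro φ ψ h3 rfl rfl
    refine h3.weaken le_rfl le_rfl subset_rfl ?_
    rintro ρ ⟨_, rfl | rfl⟩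
    · exact Or.inl rfl
    · exact Or.inr rfl
  have two : ∀ {φ ψ : (Fin n → Bool) → Prop}, Ext 1 0 𝓖 {φ} → Ext 1 0 𝓖 {ψ} →
      Ext 2 0 𝓖 {ρ | ρ = φ ∨ ρ = ψ} := by
    intro φ ψ h3 h4
    refine (h3.trans (h4.weaken le_rfl le_rfl Set.subset_union_left subset_rfl)).weaken
      le_rfl le_rfl subset_rfl ?_
    rintro ρ (rfl | rfl)
    · exact Or.inl rfl
    · exact Or.inr rfl
  have old : ∀ {φ : (Fin n → Bool) → Prop}, φ ∈ 𝓖 → Ext 1 0 𝓖 {φ} := fun hφ =>
    (Ext.of_subset (Set.singleton_subset_iff.2 hφ)).weaken (by omega) le_rfl subset_rfl subset_rfl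
  rcases hp ⟨i, hi⟩ with ⟨v, h⟩ | h | h | ⟨j, k, hj, hk, h⟩ | ⟨j, k, hj, hk, h⟩ | ⟨-, j, hj, h⟩
  · refine fin (two (old (Or.inl (h1 ⟨v, rfl⟩))) (old (Or.inl (h2 ⟨v, rfl⟩))))
      (funext fun x => propext (h x)) (funext fun x => propext (not_congr (h x)))
  · refine fin (two (Ext.tru _) (Ext.fls _)) (funext fun x => propext (iff_of_true (h x) trivial))
      (funext fun x => propext (iff_of_false (not_not.2 (h x)) id))
  · refine fin (two (Ext.fls _) (Ext.tru _)) (funext fun x => propext (iff_of_false (h x) id))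
      (funext fun x => propext (iff_of_true (h x) trivial))
  · refine fin (two (Ext.and (key j hj).1 (key k hk).1) (Ext.or (key j hj).2 (key k hk).2))
      (funext fun x => propext (h x)) (funext fun x => propext ?_)
    rw [h, not_and_or]
  · refine fin (two (Ext.or (key j hj).1 (key k hk).1) (Ext.and (key j hj).2 (key k hk).2))
      (funext fun x => propext (h x)) (funext fun x => propext ?_)
    rw [h, not_or]
  · refine fin (two (old (key j hj).2) (old (key j hj).1))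
      (funext fun x => propext (h x)) (funext fun x => propext ?_)
    rw [h, not_not]

/-- The theorem of Markov and Fischer: a circuit in `n < 2 ^ r` variables can be simulated with `r`
negation gates. -/
theorem markov_fischer {s r : ℕ} {p : Fin s → (Fin n → Bool) → Prop} (hp : NegProg univ p)
    (hr : n < 2 ^ r) :
    Comp (n + (n + 1) * ((n + 1) * (2 ^ r * 2)) + 5 * 2 ^ r + n * ((n + 1) * 2) + s * 2) r
      {φ | ∃ i, φ = p i} := by
  have e1 := ext_vars (n := n)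
  have e2 := ext_thr (n := n) (2 ^ r)
  have hthr : ∀ j, 1 ≤ j → j < 2 ^ r → (fun (x : Fin n → Bool) => j ≤ cnt n n x) ∈ thr n (2 ^ r) :=
    fun j _ hj => ⟨n, Nat.lt_succ_self n, n, Nat.lt_succ_self n, j, hj, rfl⟩
  have e3 := inverter r (fun j (x : Fin n → Bool) => j ≤ cnt n n x)
    (fun j x h => (Nat.le_succ j).trans h) _ hthr
  set 𝓘 : Set ((Fin n → Bool) → Prop) :=
    {φ | ∃ j < 2 ^ r, 1 ≤ j ∧ φ = fun x => ¬ j ≤ cnt n n x} with hI
  have e4 := ext_nvars hr hr (thr n (2 ^ r) ∪ 𝓘) Set.subset_union_left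
    fun j hj hj1 => Or.inr ⟨j, hj, hj1, rfl⟩
  have e5 := ext_double hp (vars n ∪ nvars n) Set.subset_union_left Set.subset_union_right
  have e6 : Ext _ _ ∅ _ := e1.trans ((e2.trans ((e3.weaken le_rfl le_rfl
    (𝓕' := vars n ∪ thr n (2 ^ r)) Set.subset_union_right subset_rfl).trans
    ((e4.weaken le_rfl le_rfl (𝓕' := vars n ∪ thr n (2 ^ r) ∪ 𝓘) (by
      rintro φ (h | h)
      · exact Or.inl (Or.inr h)
      · exact Or.inr h) subset_rfl).trans
      (e5.weaken le_rfl le_rfl (𝓕' := vars n ∪ thr n (2 ^ r) ∪ 𝓘 ∪ nvars n) (by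
        rintro φ (h | h)
        · exact Or.inl (Or.inl (Or.inl h))
        · exact Or.inr h) subset_rfl)))).weaken le_rfl le_rfl Set.subset_union_right subset_rfl)
  refine e6.comp.weaken (by omega) (by omega) ?_
  rintro φ h
  exact Or.inr (Or.inr (Or.inr (Or.inr h)))

end Pool.Agent.W74_5f6b2a
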