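import Pool.Agent.W74_5f6b2a.Game

/-!
Many disjoint copies of `NSat t` inside one instance of `NSat t`: selectors, rows, first wrong
moves.
-/

namespace Pool.Agent.W74_5f6b2a

open Finset Pool.Agent.W_MP_5f6b2a_mon

/-- The elements: rows of colour `c` in the block `b`, selectors for the block of the coordinate
`a`, selectors for the block of the rows. -/
inductive Elem (k s p m : ℕ)
  | row (c : Fin k) (b : Fin p) (l : Fin m)
  | sel (a : Fin (s + 1)) (b : Fin p)
  | top (b : Fin p)

/-- The values of the coordinates: regular ones, two special ones, constraints. -/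
inductive Coord (K : Type) (p m : ℕ)
  | reg (b : Fin p) (i : Fin m)
  | side (v : Bool)
  | con (κ : K)

/-- The groups of elements. -/
abbrev Grp (k s : ℕ) := Option (Fin k ⊕ Fin (s + 1))

variable {k s p m : ℕ} {K : Type}

/-- The group of an element. -/
def grp : Elem k s p m → Grp k s
  | .row c _ _ => some (Sum.inl c)
  | .sel a _ => some (Sum.inr a)
  | .top _ => none

/-- A transversal. -/
def tr (J : Fin (s + 1) → Fin p) (β : Fin p) (ρ : Fin k → Fin m) : Grp k s → Elem k s p m
  | some (Sum.inl c) => .row c β (ρ c)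
  | some (Sum.inr a) => .sel a (J a)
  | none => .top β

theorem grp_tr (J : Fin (s + 1) → Fin p) (β : Fin p) (ρ : Fin k → Fin m) (γ : Grp k s) :
    grp (tr J β ρ γ) = γ := by
  rcases γ with _ | (c | a) <;> rfl

/-- The elements of a transversal. -/
def T (J : Fin (s + 1) → Fin p) (β : Fin p) (ρ : Fin k → Fin m) (e : Elem k s p m) : Prop :=
  e = tr J β ρ (grp e)

theorem T_row {J : Fin (s + 1) → Fin p} {β : Fin p} {ρ : Fin k → Fin m} {c : Fin k} {b : Fin p}
    {l : Fin m} : T J β ρ (.row c b l) ↔ b = β ∧ l = ρ c := by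
  simp [T, grp, tr]

theorem T_sel {J : Fin (s + 1) → Fin p} {β : Fin p} {ρ : Fin k → Fin m} {a : Fin (s + 1)}
    {b : Fin p} : T J β ρ (.sel a b : Elem k s p m) ↔ b = J a := by
  simp [T, grp, tr]

theorem T_top {J : Fin (s + 1) → Fin p} {β : Fin p} {ρ : Fin k → Fin m} {b : Fin p} :
    T J β ρ (.top b : Elem k s p m) ↔ b = β := by
  simp [T, grp, tr]

/-- The leaves of the game. -/
def G (z : (Fin (s + 1) → Fin p) → Fin p → (Fin (s + 1) → Fin m) → Fin m → Prop)
    (q : Fin (s + 1) → Coord K p m) : Elem k s p m → Prop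
  | .row _ b l => ∃ (β : Fin (s + 1) → Fin p) (i : Fin (s + 1) → Fin m),
      (∀ a, q a = .reg (β a) (i a)) ∧ z β b i l
  | .sel a b => (Odd (s + 1 - (a : ℕ)) ∧ (∀ a' < a, q a' ≠ .side true) ∧
        (∀ i, q a ≠ .reg b i) ∧ (a = 0 ∨ q a ≠ .side true)) ∨
      (Even (s + 1 - (a : ℕ)) ∧ (∀ a' ≤ a, q a' ≠ .side true) ∧ (∃ i, q a = .reg b i) ∧
        ∃ a1 : Fin (s + 1), (a1 : ℕ) = a + 1 ∧ q a1 = .side true)
  | .top _ => False

/-- The first wrong move is at a coordinate of the player of the last coordinate. -/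
theorem G_wrong (J : Fin (s + 1) → Fin p) (β : Fin p) (ρ : Fin k → Fin m)
    (z : (Fin (s + 1) → Fin p) → Fin p → (Fin (s + 1) → Fin m) → Fin m → Prop)
    (q : Fin (s + 1) → Coord K p m) (a : Fin (s + 1))
    (h1 : ∀ a' < a, ∃ i, q a' = .reg (J a') i) (h2 : ∀ i, q a ≠ .reg (J a) i)
    (h3 : Odd (s + 1 - (a : ℕ))) : ∃ e, T J β ρ e ∧ G z q e := by
  have hpre : ∀ a' < a, q a' ≠ .side true := by
    intro a' ha' h
    obtain ⟨i, hi⟩ := h1 a' ha'
    rw [hi] at h
    simp at h
  by_cases h : a ≠ 0 ∧ q a = .side true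
  · obtain ⟨h4, h5⟩ := h
    have ha0 : (a : ℕ) ≠ 0 := fun h => h4 (Fin.ext h)
    have ha1 : (a : ℕ) - 1 < s + 1 := by
      have := a.2
      omega
    have hlt : (⟨(a : ℕ) - 1, ha1⟩ : Fin (s + 1)) < a := by
      rw [Fin.lt_def]
      show (a : ℕ) - 1 < a
      omega
    refine ⟨.sel ⟨(a : ℕ) - 1, ha1⟩ (J ⟨(a : ℕ) - 1, ha1⟩), T_sel.2 rfl,
      Or.inr ⟨?_, fun a' ha' => hpre a' (lt_of_le_of_lt ha' hlt), h1 _ hlt, a, ?_, h5⟩⟩
    · have h6 : s + 1 - ((a : ℕ) - 1) = (s + 1 - a) + 1 := by
        have := a.2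
        omega
      show Even (s + 1 - ((a : ℕ) - 1))
      rw [h6]
      exact h3.add_one
    · show (a : ℕ) = (a : ℕ) - 1 + 1
      omega
  · refine ⟨.sel a (J a), T_sel.2 rfl, Or.inl ⟨h3, hpre, h2, ?_⟩⟩
    by_cases h4 : a = 0
    · exact Or.inl h4
    · exact Or.inr fun h5 => h ⟨h4, h5⟩

/-- The first wrong move is at a coordinate of the other player and the answer is `side true`. -/
theorem G_star (J : Fin (s + 1) → Fin p) (β : Fin p) (ρ : Fin k → Fin m)
    (z : (Fin (s + 1) → Fin p) → Fin p → (Fin (s + 1) → Fin m) → Fin m → Prop)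
    (q : Fin (s + 1) → Coord K p m) (a a1 : Fin (s + 1)) (h0 : (a1 : ℕ) = a + 1)
    (h1 : ∀ a' < a, ∃ i, q a' = .reg (J a') i) (h2 : ∀ i, q a ≠ .reg (J a) i)
    (h3 : q a1 = .side true) (h4 : Even (s + 1 - (a : ℕ))) : ¬ ∃ e, T J β ρ e ∧ G z q e := by
  rintro ⟨(⟨c, b, l⟩ | ⟨a', b⟩ | b), hT, hG⟩
  · obtain ⟨β', i', h5, -⟩ := hG
    rw [h5] at h3
    simp at h3
  · obtain rfl := T_sel.1 hT
    have hlt : a < a1 := by
      rw [Fin.lt_def, h0]
      exact Nat.lt_succ_self _
    rcases hG with ⟨h5, h6, h7, h8⟩ | ⟨h5, h6, ⟨i, h7⟩, a2, h8, h9⟩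
    · rcases lt_trichotomy a' a with h9 | h9 | h9
      · obtain ⟨i, hi⟩ := h1 a' h9
        exact h7 i hi
      · rw [h9] at h5
        exact (Nat.not_even_iff_odd.2 h5) h4
      · have h10 : a1 ≤ a' := by
          rw [Fin.le_def, h0]
          exact h9
        rcases h10.lt_or_eq with h11 | h11
        · exact h6 a1 h11 h3
        · rw [← h11] at h8
          rcases h8 with h8 | h8
          · rw [h8] at hlt
            exact Fin.not_lt_zero a hlt
          · exact h8 h3
    · rcases lt_trichotomy a' a with h10 | h10 | h10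
      · have h11 : a2 ≤ a := by
          rw [Fin.le_def, h8]
          exact h10
        rcases h11.lt_or_eq with h12 | h12
        · obtain ⟨i', hi'⟩ := h1 a2 h12
          rw [hi'] at h9
          simp at h9
        · rw [h12] at h8
          have h13 : s + 1 - (a' : ℕ) = (s + 1 - (a : ℕ)) + 1 := by
            have := a.2
            omega
          rw [h13] at h5
          exact (Nat.not_even_iff_odd.2 h4.add_one) h5
      · rw [h10] at h7
        exact h2 i h7
      · have h11 : a1 ≤ a' := by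
          rw [Fin.le_def, h0]
          exact h10
        exact h6 a1 h11 h3
  · exact hG

/-- The value of the game for a transversal. -/
theorem core {m' : ℕ} (hm' : 0 < m') (dec : Fin m' → Coord K p m)
    (hdec : Function.Surjective dec) (J : Fin (s + 1) → Fin p) (β : Fin p) (ρ : Fin k → Fin m)
    (z : (Fin (s + 1) → Fin p) → Fin p → (Fin (s + 1) → Fin m) → Fin m → Prop) (b : Bool)
    (hb : b = true ↔ Odd (s + 1)) :
    alt (s + 1) b (fun q => ∃ e, T J β ρ e ∧ G z (fun a => dec (q a)) e) ↔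
      alt (s + 1) b fun i => ∃ c, z J β i (ρ c) := by
  refine game hm' dec (.side true) (hdec _) .reg (fun β i => hdec _) (s + 1) b hb J
    (fun q => ∃ e, T J β ρ e ∧ G z q e) (fun i => ∃ c, z J β i (ρ c)) (fun i => ?_)
    (G_wrong J β ρ z) (G_star J β ρ z)
  constructor
  · rintro ⟨(⟨c, b, l⟩ | ⟨a, b⟩ | b), hT, hG⟩
    · obtain ⟨rfl, rfl⟩ := T_row.1 hT
      obtain ⟨β', i', h5, h6⟩ := hG
      have h7 : J = β' := by
        funext a
        have := h5 a
        simp only [Coord.reg.injEq] at this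
        exact this.1
      have h8 : i = i' := by
        funext a
        have := h5 a
        simp only [Coord.reg.injEq] at this
        exact this.2
      subst h7
      subst h8
      exact ⟨c, h6⟩
    · obtain rfl := T_sel.1 hT
      rcases hG with ⟨-, -, h5, -⟩ | ⟨-, -, -, a1, -, h5⟩
      · exact absurd rfl (h5 (i a))
      · simp at h5
    · exact hG.elim
  · rintro ⟨c, hc⟩
    exact ⟨.row c β (ρ c), T_row.2 ⟨rfl, rfl⟩, J, i, fun a => rfl, hc⟩

/-- If a set of elements meets every group and has the right size, then it is a transversal of the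
groups. -/
theorem transversal {m' : ℕ} (ι : Elem k s p m → Fin m') (hι : Function.Injective ι)
    (S : Finset (Fin m')) (hS : S.card = k + s + 2)
    (h : ∀ γ : Grp k s, ∃ e, ι e ∈ S ∧ grp e = γ) :
    ∃ f : Grp k s → Elem k s p m, (∀ γ, grp (f γ) = γ) ∧ ∀ e, ι e ∈ S ↔ e = f (grp e) := by
  classical
  choose f hf1 hf2 using h
  refine ⟨f, hf2, fun e => ⟨fun he => ?_, fun he => by rw [he]; exact hf1 _⟩⟩
  have hinj : Function.Injective fun γ => ι (f γ) := by
    intro γ γ' hγ
    rw [← hf2 γ, ← hf2 γ', hι hγ]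
  have himg : univ.image (fun γ => ι (f γ)) = S := by
    refine eq_of_subset_of_card_le (fun l hl => ?_) ?_
    · obtain ⟨γ, -, rfl⟩ := mem_image.1 hl
      exact hf1 γ
    · rw [card_image_of_injective _ hinj, hS, card_univ]
      simp only [Fintype.card_option, Fintype.card_sum, Fintype.card_fin]
      omega
  rw [← himg] at he
  obtain ⟨γ, -, hγ⟩ := mem_image.1 he
  have := hι hγ
  rw [← this, hf2]

/-- Transversals of the groups whose rows are in the block of the top selector. -/
theorem transversal_tr {f : Grp k s → Elem k s p m} (hf : ∀ γ, grp (f γ) = γ)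
    (hblk : ∀ c b l b', f (some (Sum.inl c)) = .row c b l → f none = .top b' → b = b') :
    ∃ (J : Fin (s + 1) → Fin p) (β : Fin p) (ρ : Fin k → Fin m), f = tr J β ρ := by
  have h1 : ∃ β, f none = .top β := by
    have := hf none
    rcases h : f none with ⟨c, b, l⟩ | ⟨a, b⟩ | b
    · rw [h] at this
      simp [grp] at this
    · rw [h] at this
      simp [grp] at this
    · exact ⟨b, rfl⟩
  obtain ⟨β, hβ⟩ := h1
  have h2 : ∀ a, ∃ b, f (some (Sum.inr a)) = .sel a b := by
    intro a
    have := hf (some (Sum.inr a))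
    rcases h : f (some (Sum.inr a)) with ⟨c, b, l⟩ | ⟨a', b⟩ | b
    · rw [h] at this
      simp [grp] at this
    · rw [h] at this
      simp [grp] at this
      exact ⟨b, by rw [this]⟩
    · rw [h] at this
      simp [grp] at this
  choose J hJ using h2
  have h3 : ∀ c, ∃ l, f (some (Sum.inl c)) = .row c β l := by
    intro c
    have := hf (some (Sum.inl c))
    rcases h : f (some (Sum.inl c)) with ⟨c', b, l⟩ | ⟨a', b⟩ | b
    · rw [h] at this
      simp [grp] at this
      rw [this] at h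
      rw [this, hblk c b l β h hβ]
      exact ⟨l, rfl⟩
    · rw [h] at this
      simp [grp] at this
    · rw [h] at this
      simp [grp] at this
  choose ρ hρ using h3
  refine ⟨J, β, ρ, ?_⟩
  funext γ
  rcases γ with _ | (c | a)
  · exact hβ
  · exact hρ c
  · exact hJ a

/-- The set of a transversal. -/
def trSet {m' : ℕ} (ι : Elem k s p m → Fin m') (J : Fin (s + 1) → Fin p)
    (β : Fin p) (ρ : Fin k → Fin m) : Finset (Fin m') :=
  univ.image fun γ => ι (tr J β ρ γ)

theorem mem_trSet {m' : ℕ} {ι : Elem k s p m → Fin m'} (hι : Function.Injective ι)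
    {J : Fin (s + 1) → Fin p} {β : Fin p} {ρ : Fin k → Fin m} {e : Elem k s p m} :
    ι e ∈ trSet ι J β ρ ↔ T J β ρ e := by
  unfold trSet
  rw [mem_image]
  constructor
  · rintro ⟨γ, -, hγ⟩
    have := hι hγ
    rw [T, ← this, grp_tr]
  · intro h
    exact ⟨grp e, mem_univ _, by rw [← h]⟩

theorem trSet_sub {m' : ℕ} {ι : Elem k s p m → Fin m'} {J : Fin (s + 1) → Fin p} {β : Fin p}
    {ρ : Fin k → Fin m} {l : Fin m'} (hl : l ∈ trSet ι J β ρ) : ∃ e, ι e = l := by
  unfold trSet at hl
  obtain ⟨γ, -, hγ⟩ := mem_image.1 hl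
  exact ⟨_, hγ⟩

theorem card_trSet {m' : ℕ} {ι : Elem k s p m → Fin m'} (hι : Function.Injective ι)
    {J : Fin (s + 1) → Fin p} {β : Fin p} {ρ : Fin k → Fin m} :
    (trSet ι J β ρ).card = k + s + 2 := by
  unfold trSet
  rw [card_image_of_injective, card_univ]
  · simp only [Fintype.card_option, Fintype.card_sum, Fintype.card_fin]
    omega
  · intro γ γ' hγ
    rw [← grp_tr J β ρ γ, ← grp_tr J β ρ γ', hι hγ]

end Pool.Agent.W74_5f6b2a
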