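import Pool.Agent.W74_5f6b2a.Alt

/-!
Alternating quantifiers over a larger domain: wrong moves are punished.
-/

namespace Pool.Agent.W74_5f6b2a

open Finset Pool.Agent.W_MP_5f6b2a_mon

theorem alt_const {m : ℕ} (hm : 0 < m) (j : ℕ) (P : Prop) :
    ∀ b : Bool, alt j b (fun _ : Fin j → Fin m => P) ↔ P := by
  induction j with
  | zero =>
    intro b
    cases b <;> exact Iff.rfl
  | succ j ih =>
    intro b
    cases b
    · constructor
      · rintro ⟨_, h⟩
        exact (ih true).1 h
      · exact fun h => ⟨⟨0, hm⟩, (ih true).2 h⟩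
    · exact ⟨fun h => (ih false).1 (h ⟨0, hm⟩), fun h _ => (ih false).2 h⟩

theorem alt_not {m : ℕ} (j : ℕ) : ∀ (b : Bool) (φ : (Fin j → Fin m) → Prop),
    ¬ alt j b φ ↔ alt j (!b) fun q => ¬ φ q := by
  induction j with
  | zero =>
    intro b φ
    cases b <;> exact Iff.rfl
  | succ j ih =>
    intro b φ
    cases b
    · show (¬ ∃ i, alt j true fun q => φ (Fin.cons i q)) ↔
        ∀ i, alt j false fun q => ¬ φ (Fin.cons i q)
      rw [not_exists]
      exact forall_congr' fun i => ih true _
    · show (¬ ∀ i, alt j false fun q => φ (Fin.cons i q)) ↔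
        ∃ i, alt j true fun q => ¬ φ (Fin.cons i q)
      rw [not_forall]
      exact exists_congr fun i => ih false _

theorem cons_comp {j : ℕ} {α β : Type} (f : α → β) (a : α) (q : Fin j → α) :
    (fun i => f ((Fin.cons a q : Fin (j + 1) → α) i)) =
      (Fin.cons (f a) (fun i => f (q i)) : Fin (j + 1) → β) := by
  funext i
  refine Fin.cases ?_ (fun i => ?_) i
  · simp
  · simp

/-- The game lemma. The coordinates `a` with `j - a` odd belong to the player `∀`, the last one in
particular. A first wrong move of `∀` makes `Φ` true, and a first wrong move of `∃` makes `Φ` false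
if `∀` answers `star`. -/
theorem game {C : Type} {m m' p : ℕ} (hm' : 0 < m') (dec : Fin m' → C) (star : C)
    (hstar : ∃ c, dec c = star) (reg : Fin p → Fin m → C) (hreg : ∀ β i, ∃ c, dec c = reg β i)
    (j : ℕ) : ∀ (b : Bool) (_ : b = true ↔ Odd j) (J : Fin j → Fin p) (Φ : (Fin j → C) → Prop)
      (φ : (Fin j → Fin m) → Prop)
      (_ : ∀ i : Fin j → Fin m, Φ (fun a => reg (J a) (i a)) ↔ φ i)
      (_ : ∀ (q : Fin j → C) (a : Fin j), (∀ a' < a, ∃ i, q a' = reg (J a') i) →
        (∀ i, q a ≠ reg (J a) i) → Odd (j - (a : ℕ)) → Φ q)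
      (_ : ∀ (q : Fin j → C) (a a1 : Fin j), (a1 : ℕ) = a + 1 →
        (∀ a' < a, ∃ i, q a' = reg (J a') i) → (∀ i, q a ≠ reg (J a) i) → q a1 = star →
        Even (j - (a : ℕ)) → ¬ Φ q),
      alt j b (fun q => Φ fun a => dec (q a)) ↔ alt j b φ := by
  induction j with
  | zero =>
    intro b _ J Φ φ H1 _ _
    have h : ∀ q : Fin 0 → Fin m', Φ (fun a => dec (q a)) ↔ φ Fin.elim0 := by
      intro q
      rw [← H1]
      have : (fun a => dec (q a)) = fun a => reg (J a) ((Fin.elim0 : Fin 0 → Fin m) a) :=
        funext fun a => a.elim0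
      rw [this]
    cases b <;> exact h _
  | succ j ih =>
    intro b hb J Φ φ H1 H2 H3
    -- the induction hypothesis after a right move
    have key : ∀ b' : Bool, (b' = true ↔ Odd j) → ∀ i : Fin m,
        (alt j b' (fun q => Φ (Fin.cons (reg (J 0) i) fun a => dec (q a))) ↔
          alt j b' fun q => φ (Fin.cons i q)) := by
      intro b' hb' i
      refine ih b' hb' (fun a => J a.succ) (fun q => Φ (Fin.cons (reg (J 0) i) q))
        (fun q => φ (Fin.cons i q)) (fun i' => ?_) (fun q a h1 h2 h3 => ?_)
        (fun q a a1 h0 h1 h2 h3 h4 => ?_)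
      · rw [← H1]
        have : (fun a => reg (J a) ((Fin.cons i i' : Fin (j + 1) → Fin m) a)) =
            (Fin.cons (reg (J 0) i) (fun a => reg (J a.succ) (i' a)) : Fin (j + 1) → C) := by
          funext a
          refine Fin.cases ?_ (fun a => ?_) a
          · simp
          · simp
        rw [this]
      · refine H2 _ a.succ (fun a' ha' => ?_) (fun i' => ?_) ?_
        · revert ha'
          refine Fin.cases (fun _ => ⟨i, by simp⟩) (fun a' ha' => ?_) a'
          obtain ⟨i', hi'⟩ := h1 a' (Fin.succ_lt_succ_iff.1 ha')
          exact ⟨i', by simpa using hi'⟩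
        · simpa using h2 i'
        · simpa using h3
      · refine H3 _ a.succ a1.succ (by simpa using h0) (fun a' ha' => ?_) (fun i' => ?_) ?_ ?_
        · revert ha'
          refine Fin.cases (fun _ => ⟨i, by simp⟩) (fun a' ha' => ?_) a'
          obtain ⟨i', hi'⟩ := h1 a' (Fin.succ_lt_succ_iff.1 ha')
          exact ⟨i', by simpa using hi'⟩
        · simpa using h2 i'
        · simpa using h3
        · simpa using h4
    have hcons : ∀ (c : Fin m') (q : Fin j → Fin m'), (fun a => dec ((Fin.cons c q :
        Fin (j + 1) → Fin m') a)) = (Fin.cons (dec c) (fun a => dec (q a)) : Fin (j + 1) → C) :=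
      fun c q => cons_comp dec c q
    cases b
    · -- the first player is `∃`
      have hodd : ¬ Odd (j + 1) := fun h => by simpa using hb.2 h
      have hj : Odd j := by
        rcases Nat.even_or_odd j with h | h
        · exact absurd h.add_one hodd
        · exact h
      obtain ⟨j', rfl⟩ : ∃ j', j = j' + 1 := ⟨j - 1, by have := hj.pos; omega⟩
      show (∃ c, alt (j' + 1) true fun q => Φ fun a => dec ((Fin.cons c q :
        Fin (j' + 1 + 1) → Fin m') a)) ↔ ∃ i, alt (j' + 1) true fun q => φ (Fin.cons i q)
      constructor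
      · rintro ⟨c, hc⟩
        simp only [hcons] at hc
        by_cases h : ∃ i, dec c = reg (J 0) i
        · obtain ⟨i, hi⟩ := h
          rw [hi] at hc
          exact ⟨i, (key true (by simpa using hj) i).1 hc⟩
        · exfalso
          obtain ⟨c', hc'⟩ := hstar
          have h1 := hc c'
          rw [← alt_const hm' j' False false]
          refine alt_imp j' false (fun q hq => ?_) h1
          refine H3 _ 0 1 (by simp) (fun a' ha' => absurd ha' (Fin.not_lt_zero a'))
            (fun i hi => h ⟨i, by simpa using hi⟩) ?_ ?_ hq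
          · have : (1 : Fin (j' + 1 + 1)) = Fin.succ 0 := rfl
            rw [this, Fin.cons_succ]
            simpa using hc'
          · simpa using hj.add_one
      · rintro ⟨i, hi⟩
        obtain ⟨c, hc⟩ := hreg (J 0) i
        refine ⟨c, ?_⟩
        simp only [hcons, hc]
        exact (key true (by simpa using hj) i).2 hi
    · -- the first player is `∀`
      have hodd : Odd (j + 1) := hb.1 rfl
      have hj : ¬ Odd j := by
        intro h
        exact (Nat.not_even_iff_odd.2 hodd) h.add_one
      show (∀ c, alt j false fun q => Φ fun a => dec ((Fin.cons c q :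
        Fin (j + 1) → Fin m') a)) ↔ ∀ i, alt j false fun q => φ (Fin.cons i q)
      simp only [hcons]
      constructor
      · intro h i
        obtain ⟨c, hc⟩ := hreg (J 0) i
        have h1 := h c
        rw [hc] at h1
        exact (key false (by simpa using hj) i).1 h1
      · intro h c
        by_cases hc : ∃ i, dec c = reg (J 0) i
        · obtain ⟨i, hi⟩ := hc
          rw [hi]
          exact (key false (by simpa using hj) i).2 (h i)
        · refine alt_imp j false (fun q _ => ?_) ((alt_const hm' j True false).2 trivial)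
          refine H2 _ 0 (fun a' ha' => absurd ha' (Fin.not_lt_zero a'))
            (fun i hi => hc ⟨i, by simpa using hi⟩) ?_
          simpa using hodd

end Pool.Agent.W74_5f6b2a
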