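import Pool.Agent.W74_5f6b2a.Defs

/-!
The halving argument: on the negative inputs of a suitable copy all negation gates are constant.
-/

namespace Pool.Agent.W74_5f6b2a

open Finset Pool.Agent.W_MP_5f6b2a_mon

variable {J W V : Type} {s : ℕ}

/-- The inputs all of whose rows belong to `Neg` and which agree with `y` outside the set `U` of
live rows. -/
def Dom (Neg : Set (W → Bool)) (U : Finset J) (y : J → W → Bool) : Set (J → W → Bool) :=
  {x | (∀ j, x j ∈ Neg) ∧ ∀ j, j ∉ U → x j = y j}

/-- `φ` is monotone on `D`. -/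
def MonOn (D : Set (J → W → Bool)) (φ : (J → W → Bool) → Prop) : Prop :=
  ∀ x ∈ D, ∀ x' ∈ D, x ≤ x' → φ x → φ x'

/-- `φ` is constant on `D`. -/
def ConOn (D : Set (J → W → Bool)) (φ : (J → W → Bool) → Prop) : Prop :=
  ∀ x ∈ D, ∀ x' ∈ D, (φ x ↔ φ x')

/-- One step: a monotone function becomes constant after giving up half of the live rows. -/
theorem halve [DecidableEq J] {Neg : Set (W → Bool)} (hbot : (⊥ : W → Bool) ∈ Neg)
    (U : Finset J) {y : J → W → Bool} (hy : ∀ j, y j ∈ Neg) {φ : (J → W → Bool) → Prop}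
    (hφ : MonOn (Dom Neg U y) φ) :
    ∃ (U' : Finset J) (y' : J → W → Bool), U.card / 2 ≤ U'.card ∧ (∀ j, y' j ∈ Neg) ∧
      Dom Neg U' y' ⊆ Dom Neg U y ∧ ConOn (Dom Neg U' y') φ := by
  obtain ⟨U1, hU1, hc1⟩ := exists_subset_card_eq (show U.card / 2 ≤ U.card from Nat.div_le_self _ _)
  by_cases h : ∃ x ∈ Dom Neg U y, (∀ j ∈ U1, x j = ⊥) ∧ φ x
  · obtain ⟨x, hx, hx1, hx2⟩ := h
    have hsub : Dom Neg U1 x ⊆ Dom Neg U y := by
      intro z hz
      refine ⟨hz.1, fun j hj => ?_⟩
      rw [hz.2 j fun h' => hj (hU1 h'), hx.2 j hj]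
    have hall : ∀ z ∈ Dom Neg U1 x, φ z := by
      intro z hz
      refine hφ x hx z (hsub hz) (fun j => ?_) hx2
      by_cases hj : j ∈ U1
      · rw [hx1 j hj]
        exact bot_le
      · rw [hz.2 j hj]
    exact ⟨U1, x, hc1.ge, hx.1, hsub, fun z hz z' hz' => iff_of_true (hall z hz) (hall z' hz')⟩
  · refine ⟨U \ U1, fun j => if j ∈ U1 then ⊥ else y j, ?_, fun j => ?_, ?_, ?_⟩
    · rw [card_sdiff_of_subset hU1, hc1]
      omega
    · dsimp only
      split_ifs
      · exact hbot
      · exact hy j
    · intro z hz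
      refine ⟨hz.1, fun j hj => ?_⟩
      exact (hz.2 j fun h' => hj (mem_sdiff.1 h').1).trans (if_neg fun h' => hj (hU1 h'))
    · have hall : ∀ z ∈ Dom Neg (U \ U1) (fun j => if j ∈ U1 then ⊥ else y j), ¬ φ z := by
        intro z hz hz'
        refine h ⟨z, ⟨hz.1, fun j hj => ?_⟩, fun j hj => ?_, hz'⟩
        · exact (hz.2 j fun h' => hj (mem_sdiff.1 h').1).trans (if_neg fun h' => hj (hU1 h'))
        · exact (hz.2 j fun h' => (mem_sdiff.1 h').2 hj).trans (if_pos hj)
      exact fun z hz z' hz' => iff_of_false (hall z hz) (hall z' hz')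

/-- If the gates in `B` before `i` are constant on `D`, then all gates before `i` are monotone. -/
theorem mono_on {B : Finset (Fin s)} {p : Fin s → (V → Bool) → Prop} (hp : NegProg B p)
    (σ : V → J × W) (D : Set (J → W → Bool)) (i : ℕ)
    (hc : ∀ a : Fin s, (a : ℕ) < i → a ∈ B → ConOn D fun x => p a fun v => x (σ v).1 (σ v).2) :
    ∀ a : Fin s, (a : ℕ) < i → MonOn D fun x => p a fun v => x (σ v).1 (σ v).2 := by
  have key : ∀ (n : ℕ) (a : Fin s), (a : ℕ) = n → n < i →
      MonOn D fun x => p a fun v => x (σ v).1 (σ v).2 := by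
    intro n
    induction n using Nat.strong_induction_on with
    | _ n ih =>
      intro a ha hn
      rcases hp a with ⟨v, h⟩ | h | h | ⟨j, k, hj, hk, h⟩ | ⟨j, k, hj, hk, h⟩ | ⟨hB, -⟩
      · intro x _ x' _ hxx hx
        rw [h] at hx ⊢
        have := hxx (σ v).1 (σ v).2
        rw [hx] at this
        exact top_le_iff.1 this
      · exact fun x _ x' _ _ _ => h _
      · exact fun x _ x' _ _ hx => absurd hx (h _)
      · intro x hx x' hx' hxx hpx
        simp only [h] at hpx ⊢
        exact ⟨ih j (by rw [← ha]; exact hj) j rfl (by omega) x hx x' hx' hxx hpx.1,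
          ih k (by rw [← ha]; exact hk) k rfl (by omega) x hx x' hx' hxx hpx.2⟩
      · intro x hx x' hx' hxx hpx
        simp only [h] at hpx ⊢
        rcases hpx with hpx | hpx
        · exact Or.inl (ih j (by rw [← ha]; exact hj) j rfl (by omega) x hx x' hx' hxx hpx)
        · exact Or.inr (ih k (by rw [← ha]; exact hk) k rfl (by omega) x hx x' hx' hxx hpx)
      · intro x hx x' hx' _ hpx
        exact (hc a (by omega) hB x hx x' hx').1 hpx
  exact fun a ha => key a a rfl ha

/-- After at most `B.card` halvings all gates in `B` are constant on the negative inputs. -/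
theorem halving [Fintype J] [DecidableEq J] {B : Finset (Fin s)} {p : Fin s → (V → Bool) → Prop}
    (hp : NegProg B p) (σ : V → J × W) {Neg : Set (W → Bool)} (hbot : (⊥ : W → Bool) ∈ Neg)
    (i : ℕ) (hi : i ≤ s) :
    ∃ (U : Finset J) (y : J → W → Bool),
      Fintype.card J / 2 ^ (B.filter fun a : Fin s => (a : ℕ) < i).card ≤ U.card ∧ (∀ j, y j ∈ Neg) ∧
      ∀ a : Fin s, (a : ℕ) < i → a ∈ B →
        ConOn (Dom Neg U y) fun x => p a fun v => x (σ v).1 (σ v).2 := by
  induction i with
  | zero =>
    refine ⟨univ, fun _ => ⊥, ?_, fun _ => hbot, fun a ha => absurd ha (Nat.not_lt_zero _)⟩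
    exact Nat.div_le_self _ _
  | succ i ih =>
    obtain ⟨U, y, h1, h2, h3⟩ := ih (by omega)
    set a : Fin s := ⟨i, hi⟩ with hadef
    by_cases haB : a ∈ B
    · have hfil : (B.filter fun b : Fin s => (b : ℕ) < i + 1) =
          insert a (B.filter fun b : Fin s => (b : ℕ) < i) := by
        ext b
        simp only [mem_filter, mem_insert]
        constructor
        · rintro ⟨hb, hb'⟩
          rcases Nat.lt_succ_iff_lt_or_eq.1 hb' with h | h
          · exact Or.inr ⟨hb, h⟩
          · exact Or.inl (Fin.ext h)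
        · rintro (rfl | ⟨hb, hb'⟩)
          · exact ⟨haB, Nat.lt_succ_self i⟩
          · exact ⟨hb, Nat.lt_succ_of_lt hb'⟩
      have hcard : (B.filter fun b : Fin s => (b : ℕ) < i + 1).card =
          (B.filter fun b : Fin s => (b : ℕ) < i).card + 1 := by
        rw [hfil, card_insert_of_notMem]
        simp [hadef]
      -- the gate `a` is, up to negation, a monotone function on `Dom Neg U y`
      have hmon := mono_on hp σ (Dom Neg U y) i h3
      obtain ⟨φ, hφ, hφ'⟩ : ∃ φ : (J → W → Bool) → Prop, MonOn (Dom Neg U y) φ ∧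
          ∀ D : Set (J → W → Bool), ConOn D φ →
            ConOn D fun x => p a fun v => x (σ v).1 (σ v).2 := by
        rcases hp a with ⟨v, h⟩ | h | h | ⟨j, k, hj, hk, h⟩ | ⟨j, k, hj, hk, h⟩ | ⟨-, j, hj, h⟩
        · refine ⟨fun x => x (σ v).1 (σ v).2 = true, fun x _ x' _ hxx hx => ?_,
            fun D hD x hx x' hx' => ?_⟩
          · have := hxx (σ v).1 (σ v).2
            rw [hx] at this
            exact top_le_iff.1 this
          · simp only [h]
            exact hD x hx x' hx'
        · exact ⟨fun _ => True, fun _ _ _ _ _ _ => trivial, fun D _ x _ x' _ =>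
            iff_of_true (h _) (h _)⟩
        · exact ⟨fun _ => True, fun _ _ _ _ _ _ => trivial, fun D _ x _ x' _ =>
            iff_of_false (h _) (h _)⟩
        · refine ⟨fun x => p j (fun v => x (σ v).1 (σ v).2) ∧ p k fun v => x (σ v).1 (σ v).2,
            fun x hx x' hx' hxx hpx => ⟨hmon j hj x hx x' hx' hxx hpx.1,
              hmon k hk x hx x' hx' hxx hpx.2⟩, fun D hD x hx x' hx' => ?_⟩
          simp only [h]
          exact hD x hx x' hx'
        · refine ⟨fun x => p j (fun v => x (σ v).1 (σ v).2) ∨ p k fun v => x (σ v).1 (σ v).2,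
            fun x hx x' hx' hxx hpx => hpx.imp (hmon j hj x hx x' hx' hxx)
              (hmon k hk x hx x' hx' hxx), fun D hD x hx x' hx' => ?_⟩
          simp only [h]
          exact hD x hx x' hx'
        · refine ⟨fun x => p j fun v => x (σ v).1 (σ v).2, hmon j hj,
            fun D hD x hx x' hx' => ?_⟩
          simp only [h]
          exact not_congr (hD x hx x' hx')
      obtain ⟨U', y', h4, h5, h6, h7⟩ := halve hbot U h2 hφ
      refine ⟨U', y', ?_, h5, fun b hb hbB => ?_⟩
      · rw [hcard, pow_succ, ← Nat.div_div_eq_div_mul]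
        exact (Nat.div_le_div_right h1).trans h4
      · rcases Nat.lt_succ_iff_lt_or_eq.1 hb with h | h
        · exact fun x hx x' hx' => h3 b h hbB x (h6 hx) x' (h6 hx')
        · have : b = a := Fin.ext h
          rw [this]
          exact hφ' _ h7
    · have hfil : (B.filter fun b : Fin s => (b : ℕ) < i + 1) =
          B.filter fun b : Fin s => (b : ℕ) < i := by
        ext b
        simp only [mem_filter]
        refine and_congr_right fun hb => ⟨fun hb' => ?_, fun h => Nat.lt_succ_of_lt h⟩
        rcases Nat.lt_succ_iff_lt_or_eq.1 hb' with h | h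
        · exact h
        · exact absurd (show b ∈ B from hb) (by rw [show b = a from Fin.ext h]; exact haB)
      rw [hfil]
      refine ⟨U, y, h1, h2, fun b hb hbB => ?_⟩
      rcases Nat.lt_succ_iff_lt_or_eq.1 hb with h | h
      · exact h3 b h hbB
      · exact absurd hbB (by rw [show b = a from Fin.ext h]; exact haB)

end Pool.Agent.W74_5f6b2a
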