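import Pool.Agent.W74_5f6b2a.Embed

/-!
`NSat t` is not in `NegW r t` if `r n ≤ δ * log₂ n`, where `δ < 1`.
-/

namespace Pool.Agent.W74_5f6b2a

open Finset Filter Pool.Agent.W_MP_5f6b2a_mon

/-- Substituting variables and constants. -/
theorem NegProg.proj {V V' : Type} {s : ℕ} {B : Finset (Fin s)} {p : Fin s → (V → Bool) → Prop}
    (hp : NegProg B p) (μ : (V' → Bool) → V → Bool)
    (hμ : ∀ v, (∃ v', ∀ y, μ y v = y v') ∨ ∃ c : Bool, ∀ y, μ y v = c) :
    NegProg B fun i y => p i (μ y) := by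
  intro i
  rcases hp i with ⟨v, h⟩ | h | h | ⟨j, k, hj, hk, h⟩ | ⟨j, k, hj, hk, h⟩ | ⟨hB, j, hj, h⟩
  · rcases hμ v with ⟨v', hv⟩ | ⟨c, hc⟩
    · exact Or.inl ⟨v', fun y => (h _).trans (by rw [hv])⟩
    · cases c
      · exact Or.inr (Or.inr (Or.inl fun y hy => by
          have := (h _).1 hy
          rw [hc] at this
          exact Bool.false_ne_true this))
      · exact Or.inr (Or.inl fun y => (h _).2 (hc y))
  · exact Or.inr (Or.inl fun y => h _)
  · exact Or.inr (Or.inr (Or.inl fun y => h _))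
  · exact Or.inr (Or.inr (Or.inr (Or.inl ⟨j, k, hj, hk, fun y => h _⟩)))
  · exact Or.inr (Or.inr (Or.inr (Or.inr (Or.inl ⟨j, k, hj, hk, fun y => h _⟩))))
  · exact Or.inr (Or.inr (Or.inr (Or.inr (Or.inr ⟨hB, j, hj, fun y => h _⟩))))

/-- From a program with few negation gates for the disjunction of many copies of `Q` to a monotone
program for `Q`. -/
theorem slice {J : Type} [Fintype J] [DecidableEq J] {n : ℕ} {Q : (Fin n → Bool) → Prop}
    (hQm : ∀ x x', x ≤ x' → Q x → Q x') {s N k' b T d : ℕ} {B : Finset (Fin s)}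
    {p : Fin s → (J × Fin n → Bool) → Prop}
    {F : Finset (Fin N) → (Fin s → Prop) → Prop} (hB : 2 ^ B.card ≤ Fintype.card J)
    (hp : NegProg B p) (hF : Weft b T d F)
    (hQ : ∀ y, (∃ j, Q fun w => y (j, w)) ↔ ∃ S : Finset (Fin N), S.card = k' ∧
      F S fun i => p i y) :
    ∃ (s' N' k'' : ℕ) (q : Fin s' → (Fin n → Bool) → Prop)
      (G : Finset (Fin N') → (Fin s' → Prop) → Prop), s' ≤ 3 * s + 1 ∧ N' ≤ N ∧ k'' ≤ k' ∧
      MonProg q ∧ Weft b T (d + 1) G ∧
      ∀ x, Q x ↔ ∃ S : Finset (Fin N'), S.card = k'' ∧ G S fun i => q i x := by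
  classical
  set Neg : Set (Fin n → Bool) := {z | ¬ Q z} with hNeg
  by_cases hbot : (⊥ : Fin n → Bool) ∈ Neg
  · obtain ⟨U, y, h1, h2, h3⟩ := halving hp (J := J) (W := Fin n) id hbot s le_rfl
    have hU : 1 ≤ U.card := by
      refine le_trans ?_ h1
      refine (Nat.one_le_div_iff (by positivity)).2 (le_trans ?_ hB)
      exact Nat.pow_le_pow_right (by norm_num) (card_le_card (filter_subset _ _))
    obtain ⟨j0, hj0⟩ := card_pos.1 hU
    set e : (Fin n → Bool) → J × Fin n → Bool := fun z v =>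
      if v.1 = j0 then z v.2 else if v.1 ∈ U then false else y v.1 v.2 with he
    have he1 : ∀ v, (∃ w, ∀ z, e z v = z w) ∨ ∃ c : Bool, ∀ z, e z v = c := by
      intro v
      simp only [he]
      by_cases hv : v.1 = j0
      · exact Or.inl ⟨v.2, fun z => if_pos hv⟩
      · exact Or.inr ⟨_, fun z => if_neg hv⟩
    -- the rows of `e z`
    set row : (Fin n → Bool) → J → Fin n → Bool := fun z j =>
      if j = j0 then z else if j ∈ U then ⊥ else y j with hrow
    have he2 : ∀ z, e z = fun v => row z v.1 v.2 := by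
      intro z
      funext v
      simp only [he, hrow]
      split_ifs <;> rfl
    have he3 : ∀ z, (∃ j, Q fun w => e z (j, w)) ↔ ∃ j, Q (row z j) := by
      intro z
      rw [he2]
    have hrow1 : ∀ z ∈ Neg, ∀ j, row z j ∈ Neg := by
      intro z hz j
      simp only [hrow]
      split_ifs
      · exact hz
      · exact hbot
      · exact h2 j
    have hrow2 : ∀ z ∈ Neg, row z ∈ Dom Neg U y := by
      intro z hz
      refine ⟨hrow1 z hz, fun j hj => ?_⟩
      have h4 : j ≠ j0 := by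
        rintro rfl
        exact hj hj0
      simp only [hrow, if_neg h4, if_neg hj]
    have hc : ∀ a ∈ B, ∀ z ∈ Neg, ∀ z' ∈ Neg, (p a (e z) ↔ p a (e z')) := by
      intro a ha z hz z' hz'
      rw [he2, he2]
      exact h3 a a.2 ha (row z) (hrow2 z hz) (row z') (hrow2 z' hz')
    obtain ⟨s', hs, q, g, h4, h5, h6, h7, h8⟩ := hp.elim e he1 hbot hc
    refine ⟨s', N, k', q, fun S y => F S (fun i => y (Fin.castLE hs i)) ∨ y g, h4, le_rfl, le_rfl,
      h5, Weft.or (weft_reindex _ hF) (Weft.data _ _ _), fun z => ?_⟩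
    constructor
    · intro hz
      have h9 : ∃ j, Q fun w => e z (j, w) := by
        rw [he3]
        exact ⟨j0, by simpa only [hrow, if_true] using hz⟩
      obtain ⟨S, hS, hFS⟩ := (hQ _).1 h9
      refine ⟨S, hS, ?_⟩
      by_cases hg : q g z
      · exact Or.inr hg
      · refine Or.inl ?_
        have : (fun i => q (Fin.castLE hs i) z) = fun i => p i (e z) :=
          funext fun i => propext (h8 z hg i)
        rw [this]
        exact hFS
    · rintro ⟨S, hS, hFS | hg⟩
      · by_contra hz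
        have hz' : z ∈ Neg := hz
        have : (fun i => q (Fin.castLE hs i) z) = fun i => p i (e z) :=
          funext fun i => propext (h7 z hz' i)
        rw [this] at hFS
        obtain ⟨j, hj⟩ := (he3 z).1 ((hQ _).2 ⟨S, hS, hFS⟩)
        exact hrow1 z hz' j hj
      · by_contra hz
        exact h6 z hz hg
  · have hall : ∀ z, Q z := by
      intro z
      have h1 : Q ⊥ := by
        by_contra h
        exact hbot h
      exact hQm _ _ bot_le h1
    refine ⟨1, 0, 0, fun _ _ => True, fun _ y => y 0, by omega, Nat.zero_le _, Nat.zero_le _,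
      fun i => Or.inr (Or.inl fun _ => trivial), Weft.data _ _ _, fun z => ?_⟩
    exact iff_of_true (hall z) ⟨∅, rfl, trivial⟩

/-! ### Cardinalities -/

variable {k s p m : ℕ} {K : Type}

/-- `Elem` as a sum. -/
def elemEquiv : Elem k s p m ≃ (Fin k × Fin p × Fin m) ⊕ (Fin (s + 1) × Fin p) ⊕ Fin p where
  toFun
    | .row c b l => Sum.inl (c, b, l)
    | .sel a b => Sum.inr (Sum.inl (a, b))
    | .top b => Sum.inr (Sum.inr b)
  invFun
    | Sum.inl (c, b, l) => .row c b l
    | Sum.inr (Sum.inl (a, b)) => .sel a b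
    | Sum.inr (Sum.inr b) => .top b
  left_inv e := by cases e <;> rfl
  right_inv e := by
    rcases e with ⟨c, b, l⟩ | ⟨a, b⟩ | b <;> rfl

/-- `Coord` as a sum. -/
def coordEquiv : Coord K p m ≃ (Fin p × Fin m) ⊕ Bool ⊕ K where
  toFun
    | .reg b i => Sum.inl (b, i)
    | .side v => Sum.inr (Sum.inl v)
    | .con κ => Sum.inr (Sum.inr κ)
  invFun
    | Sum.inl (b, i) => .reg b i
    | Sum.inr (Sum.inl v) => .side v
    | Sum.inr (Sum.inr κ) => .con κ
  left_inv e := by cases e <;> rfl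
  right_inv e := by
    rcases e with ⟨b, i⟩ | v | κ <;> rfl

noncomputable instance : Fintype (Elem k s p m) := Fintype.ofEquiv _ elemEquiv.symm

noncomputable instance [Fintype K] : Fintype (Coord K p m) := Fintype.ofEquiv _ coordEquiv.symm

theorem card_elem : Fintype.card (Elem k s p m) = k * (p * m) + ((s + 1) * p + p) := by
  rw [Fintype.card_congr elemEquiv]
  simp

theorem card_coord [Fintype K] : Fintype.card (Coord K p m) = p * m + (2 + Fintype.card K) := by
  rw [Fintype.card_congr coordEquiv]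
  simp

/-- The factor for the size of the universe. -/
def cst (k s : ℕ) : ℕ := 2 * k + k ^ 2 + s + 6

theorem card_elem_le (hp : 1 ≤ p) (hm : 1 ≤ m) :
    Fintype.card (Elem k s p m) ≤ cst k s * (p * m) := by
  rw [card_elem, cst]
  have h1 : p ≤ p * m := Nat.le_mul_of_pos_right p hm
  nlinarith [Nat.mul_le_mul_left (s + 1) h1, Nat.zero_le (k ^ 2 * (p * m)),
    Nat.zero_le (k * (p * m))]

theorem card_coord_le_O (hp : 1 ≤ p) (hm : 1 ≤ m) :
    Fintype.card (Coord (KO k s p) p m) ≤ cst k s * (p * m) := by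
  rw [card_coord, cst]
  simp only [KO, Fintype.card_sum, Fintype.card_option, Fintype.card_fin, Fintype.card_prod]
  have h1 : p ≤ p * m := Nat.le_mul_of_pos_right p hm
  have h2 : 1 ≤ p * m := Nat.mul_pos hp hm
  nlinarith [Nat.mul_le_mul_left k h1, Nat.mul_le_mul_left k h2, Nat.mul_le_mul_left s h2,
    Nat.zero_le (k ^ 2 * (p * m))]

theorem card_coord_le_E (hp : 1 ≤ p) (hm : 1 ≤ m) :
    Fintype.card (Coord (KE k s p m) p m) ≤ cst k s * (p * m) := by
  rw [card_coord, cst]
  simp only [KE, Fintype.card_sum, Fintype.card_fin, Fintype.card_prod, card_elem]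
  have h1 : p ≤ p * m := Nat.le_mul_of_pos_right p hm
  have h2 : 1 ≤ p * m := Nat.mul_pos hp hm
  have h3 : m ≤ p * m := Nat.le_mul_of_pos_left m hp
  nlinarith [Nat.mul_le_mul_left k h1, Nat.mul_le_mul_left s h1, Nat.mul_le_mul_left (k * k) h3]

theorem exists_emb {α : Type} [Fintype α] {M : ℕ} (h : Fintype.card α ≤ M) :
    ∃ ι : α → Fin M, Function.Injective ι := by
  obtain ⟨e⟩ := Function.Embedding.nonempty_of_card_le
    (show Fintype.card α ≤ Fintype.card (Fin M) by simpa using h)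
  exact ⟨e, e.injective⟩

theorem exists_surj {α : Type} [Fintype α] [Nonempty α] {M : ℕ} (h : Fintype.card α ≤ M) :
    ∃ f : Fin M → α, Function.Surjective f := by
  obtain ⟨ι, hι⟩ := exists_emb h
  exact ⟨Function.invFun ι, Function.invFun_surjective hι⟩

/-- `p ^ (s + 2)` disjoint copies of `NSat (s + 1)` on arrays of side `m` inside one instance of
`NSat (s + 1)` on an array of side `cst k s * (p * m)`. -/
theorem copies_inside (hp : 1 ≤ p) (hm : 1 ≤ m) (hkm : k ≤ m) :
    ∃ ψ : (Cop s p → Fin (m ^ (s + 1 + 1)) → Bool) →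
        Fin ((cst k s * (p * m)) ^ (s + 1 + 1)) → Bool,
      (∀ v, (∃ j w, ∀ x, ψ x v = x j w) ∨ ∃ c : Bool, ∀ x, ψ x v = c) ∧
      ∀ x, NSat (s + 1) ((cst k s * (p * m)) ^ (s + 1 + 1)) (ψ x) (k + s + 2) ↔
        ∃ j, NSat (s + 1) (m ^ (s + 1 + 1)) (x j) k := by
  have hpos : 0 < cst k s * (p * m) := by
    unfold cst
    positivity
  obtain ⟨ι, hι⟩ := exists_emb (card_elem_le (k := k) (s := s) hp hm)
  rcases Nat.even_or_odd (s + 1) with hs | hs
  · have : Nonempty (Coord (KE k s p m) p m) := ⟨.side true⟩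
    obtain ⟨dec, hdec⟩ := exists_surj (card_coord_le_E (k := k) (s := s) hp hm)
    exact ⟨psi false cpE ι dec, fun v => psi_proj hι v, fun x => nsat_even hs hpos ι hι dec hdec x⟩
  · have : Nonempty (Coord (KO k s p) p m) := ⟨.side true⟩
    obtain ⟨dec, hdec⟩ := exists_surj (card_coord_le_O (k := k) (s := s) hp hm)
    exact ⟨psi true (fun κ _ => HO κ) ι dec, fun v => psi_proj hι v,
      fun x => nsat_odd hs hpos hkm ι hι dec hdec x⟩

/-- `NSat t` is not in `NegW r t` if `r n ≤ δ * log₂ n` for large `n`, where `δ < 1`. -/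
theorem nsat_not_mem_negW {t : ℕ} (ht : 1 ≤ t) {r : ℕ → ℕ} {δ : ℝ} (hδ : δ < 1)
    (hr : ∀ᶠ n : ℕ in atTop, (r n : ℝ) ≤ δ * Real.logb 2 n) : NSat t ∉ NegW r t := by
  obtain ⟨s, rfl⟩ : ∃ s, t = s + 1 := ⟨t - 1, by omega⟩
  rintro ⟨c, d, f, g, h⟩
  obtain ⟨n1, hn1⟩ := eventually_atTop.1 hr
  -- the number of copies
  obtain ⟨A, hA⟩ : ∃ A : ℕ, max δ 0 * (A + 1) ≤ A - 1 := by
    have h0 : 0 < 1 - max δ 0 := by
      rcases le_total δ 0 with h1 | h1
      · rw [max_eq_right h1]
        norm_num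
      · rw [max_eq_left h1]
        linarith
    obtain ⟨A, hA⟩ := exists_nat_ge ((max δ 0 + 1) / (1 - max δ 0))
    refine ⟨A, ?_⟩
    rw [div_le_iff₀ h0] at hA
    linarith
  have hδ1 : max δ 0 ≤ 1 := max_le hδ.le zero_le_one
  have hδ0 : (0 : ℝ) ≤ max δ 0 := le_max_right _ _
  refine nsat_not_mem (s + 1) ht (MonW_of_large (fun n k x x' hx => nsat_mono hx) ((A + 1) * c)
    (d + 1) (fun k => 3 * (f (k + s + 2) * (cst k s ^ (s + 2)) ^ c) + 1) (fun k => g (k + s + 2))
    (fun k => n1 + 1 + cst k s ^ (s + 2) * 2 ^ f (k + s + 2) + k ^ (s + 2))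
    fun k n hn => ?_)
  by_cases hm : ∃ m : ℕ, m ^ (s + 1 + 1) = n
  · obtain ⟨m, rfl⟩ := hm
    have hm1 : cst k s ^ (s + 2) * 2 ^ f (k + s + 2) ≤ m ^ (s + 2) := by
      refine le_trans ?_ hn
      omega
    have hkm : k ≤ m := by
      refine (Nat.pow_le_pow_iff_left (Nat.succ_ne_zero (s + 1))).1 ?_
      refine le_trans ?_ hn
      exact Nat.le_add_left _ _
    have hm0 : 1 ≤ m := by
      rcases Nat.eq_zero_or_pos m with rfl | h0
      · simp at hn
      · exact h0
    have hC : 1 ≤ cst k s := by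
      unfold cst
      omega
    set C := cst k s with hCdef
    set n' := (C * (m ^ A * m)) ^ (s + 1 + 1) with hn'
    have hn'1 : n' = C ^ (s + 2) * (m ^ (s + 2)) ^ (A + 1) := by
      rw [hn', mul_pow, ← pow_succ, ← pow_mul, ← pow_mul, mul_comm (A + 1) (s + 2)]
    have hn2 : n1 ≤ n' := by
      calc n1 ≤ m ^ (s + 2) := by
            refine le_trans ?_ hn
            omega
        _ ≤ (m ^ (s + 2)) ^ (A + 1) := Nat.le_self_pow (Nat.succ_ne_zero A) _
        _ ≤ C ^ (s + 2) * (m ^ (s + 2)) ^ (A + 1) :=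
          Nat.le_mul_of_pos_left _ (by positivity)
        _ = n' := hn'1.symm
    obtain ⟨ψ, hψ1, hψ2⟩ := copies_inside (k := k) (s := s) (p := m ^ A) (m := m)
      (Nat.one_le_pow _ _ hm0) hm0 hkm
    obtain ⟨sz, N, k', B, P, F, h1, h2, h3, h4, h5, h6, h7⟩ := h (k + s + 2) n'
    have hB : 2 ^ B.card ≤ Fintype.card (Cop s (m ^ A)) := by
      have h8 : (B.card : ℝ) ≤ A * (s + 2) * Real.logb 2 m := by
        have h9 : (B.card : ℝ) ≤ r n' + f (k + s + 2) := by
          exact_mod_cast h4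
        have h10 := hn1 _ hn2
        have hlogC : (0 : ℝ) ≤ Real.logb 2 C :=
          Real.logb_nonneg (by norm_num) (by exact_mod_cast hC)
        have hlogm : (0 : ℝ) ≤ Real.logb 2 m :=
          Real.logb_nonneg (by norm_num) (by exact_mod_cast hm0)
        have hC0 : (C : ℝ) ≠ 0 := by
          have : (0 : ℝ) < C := by exact_mod_cast hC
          exact this.ne'
        have hm00 : (m : ℝ) ≠ 0 := by
          have : (0 : ℝ) < m := by exact_mod_cast hm0
          exact this.ne'
        have h11 : Real.logb 2 (n' : ℝ) =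
            (s + 2) * Real.logb 2 C + (A + 1) * (s + 2) * Real.logb 2 m := by
          rw [hn'1]
          push_cast
          rw [Real.logb_mul (pow_ne_zero _ hC0) (pow_ne_zero _ (pow_ne_zero _ hm00)),
            Real.logb_pow, Real.logb_pow, Real.logb_pow]
          push_cast
          ring
        have h13 : (s + 2) * Real.logb 2 C + f (k + s + 2) ≤ (s + 2) * Real.logb 2 m := by
          have h14 : ((C : ℝ) ^ (s + 2) * 2 ^ f (k + s + 2)) ≤ (m : ℝ) ^ (s + 2) := by
            exact_mod_cast hm1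
          have h15 := Real.logb_le_logb_of_le (b := 2) (by norm_num)
            (by positivity) h14
          rw [Real.logb_mul (pow_ne_zero _ hC0) (by positivity), Real.logb_pow, Real.logb_pow,
            Real.logb_pow, Real.logb_self_eq_one (by norm_num)] at h15
          push_cast at h15
          linarith
        have h12 : (0 : ℝ) ≤ Real.logb 2 (n' : ℝ) := by
          rw [h11]
          positivity
        have h16 : (r n' : ℝ) ≤ max δ 0 * Real.logb 2 (n' : ℝ) :=
          h10.trans (mul_le_mul_of_nonneg_right (le_max_left _ _) h12)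
        rw [h11] at h16
        have h17 : max δ 0 * ((s + 2) * Real.logb 2 C) ≤ (s + 2) * Real.logb 2 C :=
          mul_le_of_le_one_left (by positivity) hδ1
        have h18 : max δ 0 * (A + 1) * ((s + 2) * Real.logb 2 m) ≤
            (A - 1) * ((s + 2) * Real.logb 2 m) :=
          mul_le_mul_of_nonneg_right hA (by positivity)
        nlinarith
      have h15 : ((2 ^ B.card : ℕ) : ℝ) ≤ ((m ^ (A * (s + 2)) : ℕ) : ℝ) := by
        push_cast
        rw [← Real.rpow_natCast, ← Real.rpow_natCast, ← Real.le_logb_iff_rpow_le (by norm_num)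
          (by positivity), Real.logb_rpow_eq_mul_logb_of_pos (by positivity)]
        push_cast
        exact h8
      have h16 : Fintype.card (Cop s (m ^ A)) = m ^ (A * (s + 2)) := by
        simp only [Cop, Fintype.card_prod, Fintype.card_fun, Fintype.card_fin]
        rw [← pow_succ, ← pow_mul]
      rw [h16]
      exact_mod_cast h15
    obtain ⟨s', N', k'', q, G', h8, h9, h10, h11, h12, h13⟩ := slice
      (Q := fun x => NSat (s + 1) (m ^ (s + 1 + 1)) x k) (fun x x' hx => nsat_mono hx) hB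
      (h5.proj (V' := Cop s (m ^ A) × Fin (m ^ (s + 1 + 1))) (fun y => ψ fun j w => y (j, w))
        fun v => by
          rcases hψ1 v with ⟨j, w, hv⟩ | ⟨c, hv⟩
          · exact Or.inl ⟨(j, w), fun y => hv _⟩
          · exact Or.inr ⟨c, fun y => hv _⟩) h6
      fun y => by
        rw [← h7]
        exact (hψ2 fun j w => y (j, w)).symm
    have hsz : f (k + s + 2) * (n' + 1) ^ c ≤
        (f (k + s + 2) * (C ^ (s + 2)) ^ c) * (m ^ (s + 1 + 1) + 1) ^ ((A + 1) * c) := by
      rw [pow_mul, mul_assoc, ← mul_pow]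
      refine Nat.mul_le_mul_left _ (Nat.pow_le_pow_left ?_ c)
      rw [hn'1]
      have hC1 : 1 ≤ C ^ (s + 2) := Nat.one_le_pow _ _ hC
      calc C ^ (s + 2) * (m ^ (s + 2)) ^ (A + 1) + 1
          ≤ C ^ (s + 2) * (m ^ (s + 2)) ^ (A + 1) + C ^ (s + 2) * 1 ^ (A + 1) := by
            rw [one_pow, mul_one]
            omega
        _ = C ^ (s + 2) * ((m ^ (s + 2)) ^ (A + 1) + 1 ^ (A + 1)) := by ring
        _ ≤ C ^ (s + 2) * (m ^ (s + 2) + 1) ^ (A + 1) :=
          Nat.mul_le_mul_left _ (pow_add_pow_le (Nat.zero_le _) (Nat.zero_le _)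
            (Nat.succ_ne_zero A))
    have hsz1 : 1 ≤ (m ^ (s + 1 + 1) + 1) ^ ((A + 1) * c) := Nat.one_le_pow _ _ (Nat.succ_pos _)
    have hsz2 : (f (k + s + 2) * (C ^ (s + 2)) ^ c) * (m ^ (s + 1 + 1) + 1) ^ ((A + 1) * c) ≤
        (3 * (f (k + s + 2) * (C ^ (s + 2)) ^ c) + 1) *
          (m ^ (s + 1 + 1) + 1) ^ ((A + 1) * c) :=
      Nat.mul_le_mul_right _ (by omega)
    refine ⟨s', N', k'', q, G', ?_, (h9.trans h2).trans (hsz.trans hsz2), h10.trans h3, h11,
      weft_fanin (hsz.trans hsz2) h12, h13⟩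
    have := h1.trans hsz
    calc s' ≤ 3 * sz + 1 := h8
      _ ≤ 3 * ((f (k + s + 2) * (C ^ (s + 2)) ^ c) * (m ^ (s + 1 + 1) + 1) ^ ((A + 1) * c)) +
          (m ^ (s + 1 + 1) + 1) ^ ((A + 1) * c) := by omega
      _ = _ := by ring
  · refine ⟨1, 0, 0, fun _ _ => False, fun _ y => y 0, ?_, Nat.zero_le _, Nat.zero_le _,
      fun i => Or.inr (Or.inr (Or.inl fun _ => id)), Weft.data _ _ _, fun z => ?_⟩
    · exact Nat.succ_le_of_lt (by positivity)
    · refine iff_of_false ?_ ?_
      · rintro ⟨m, hm', -⟩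
        exact hm ⟨m, hm'⟩
      · rintro ⟨_, _, h⟩
        exact h

end Pool.Agent.W74_5f6b2a
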