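import Pool.Agent.W74_5f6b2a.Halve
import Pool.Agent.W_MP_5f6b2a_mon.MF

/-!
Replacing the negation gates by constants.
-/

namespace Pool.Agent.W74_5f6b2a

open Finset Pool.Agent.W_MP_5f6b2a_mon

/-- Removing the last gate. -/
theorem NegProg.init {V : Type} {s : ℕ} {B : Finset (Fin (s + 1))}
    {p : Fin (s + 1) → (V → Bool) → Prop} (hp : NegProg B p) :
    NegProg (univ.filter fun j : Fin s => j.castSucc ∈ B) fun j => p j.castSucc := by
  have ex : ∀ {i : Fin s} {j : Fin (s + 1)}, j < i.castSucc → ∃ j' : Fin s, j'.castSucc = j ∧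
      j' < i := by
    intro i j hj
    obtain ⟨j', rfl⟩ := (Fin.exists_castSucc_eq (i := j)).2
      (ne_of_lt (hj.trans (Fin.castSucc_lt_last i)))
    exact ⟨j', rfl, Fin.castSucc_lt_castSucc_iff.1 hj⟩
  intro i
  rcases hp i.castSucc with h | h | h | ⟨j, k, hj, hk, h⟩ | ⟨j, k, hj, hk, h⟩ | ⟨hB, j, hj, h⟩
  · exact Or.inl h
  · exact Or.inr (Or.inl h)
  · exact Or.inr (Or.inr (Or.inl h))
  · obtain ⟨j', rfl, hj'⟩ := ex hj
    obtain ⟨k', rfl, hk'⟩ := ex hk
    exact Or.inr (Or.inr (Or.inr (Or.inl ⟨j', k', hj', hk', h⟩)))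
  · obtain ⟨j', rfl, hj'⟩ := ex hj
    obtain ⟨k', rfl, hk'⟩ := ex hk
    exact Or.inr (Or.inr (Or.inr (Or.inr (Or.inl ⟨j', k', hj', hk', h⟩))))
  · obtain ⟨j', rfl, hj'⟩ := ex hj
    exact Or.inr (Or.inr (Or.inr (Or.inr (Or.inr ⟨by simpa using hB, j', hj', h⟩))))

/-- Replacing the negation gates of a circuit by given constants. -/
theorem NegProg.replace {V W : Type} (e : (W → Bool) → V → Bool)
    (he : ∀ v, (∃ w, ∀ z, e z v = z w) ∨ ∃ c : Bool, ∀ z, e z v = c) {s : ℕ} :
    ∀ {B : Finset (Fin s)} {p : Fin s → (V → Bool) → Prop}, NegProg B p → ∀ b : Fin s → Prop,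
    ∃ q : Fin s → (W → Bool) → Prop, MonProg q ∧ ∀ i,
      (∀ z, (∀ i' < i, (q i' z ↔ p i' (e z))) → (q i z ↔ p i (e z))) ∨
      (i ∈ B ∧ ∃ j < i, (∀ x, p i x ↔ ¬ p j x) ∧ ∀ z, q i z ↔ b i) := by
  induction s with
  | zero =>
    intro B p _ b
    exact ⟨fun i => i.elim0, fun i => i.elim0, fun i => i.elim0⟩
  | succ s ih =>
    intro B p hp b
    obtain ⟨q, hq, hq'⟩ := ih hp.init fun j => b j.castSucc
    have ex : ∀ {j : Fin (s + 1)}, j < Fin.last s → ∃ j' : Fin s, j'.castSucc = j := fun hj =>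
      (Fin.exists_castSucc_eq).2 (ne_of_lt hj)
    -- it suffices to find the last gate
    obtain ⟨g, hg, hg'⟩ : ∃ g : (W → Bool) → Prop,
        ((∃ v, ∀ x, g x ↔ x v = true) ∨ (∀ x, g x) ∨ (∀ x, ¬ g x) ∨
          (∃ j k, ∀ x, g x ↔ q j x ∧ q k x) ∨ (∃ j k, ∀ x, g x ↔ q j x ∨ q k x)) ∧
        ((∀ z, (∀ i', (q i' z ↔ p i'.castSucc (e z))) → (g z ↔ p (Fin.last s) (e z))) ∨
          (Fin.last s ∈ B ∧ ∃ j < Fin.last s, (∀ x, p (Fin.last s) x ↔ ¬ p j x) ∧
            ∀ z, g z ↔ b (Fin.last s))) := by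
      rcases hp (Fin.last s) with ⟨v, h⟩ | h | h | ⟨j, k, hj, hk, h⟩ | ⟨j, k, hj, hk, h⟩ |
        ⟨hB, j, hj, h⟩
      · rcases he v with ⟨w, hw⟩ | ⟨c, hc⟩
        · refine ⟨fun z => z w = true, Or.inl ⟨w, fun _ => Iff.rfl⟩, Or.inl fun z _ => ?_⟩
          rw [h, hw]
        · cases c
          · refine ⟨fun z => False, Or.inr (Or.inr (Or.inl fun _ => id)), Or.inl fun z _ => ?_⟩
            rw [h, hc]
            simp
          · refine ⟨fun z => True, Or.inr (Or.inl fun _ => trivial), Or.inl fun z _ => ?_⟩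
            rw [h, hc]
            simp
      · exact ⟨fun _ => True, Or.inr (Or.inl fun _ => trivial), Or.inl fun z _ =>
          iff_of_true trivial (h _)⟩
      · exact ⟨fun _ => False, Or.inr (Or.inr (Or.inl fun _ => id)), Or.inl fun z _ =>
          iff_of_false id (h _)⟩
      · obtain ⟨j', rfl⟩ := ex hj
        obtain ⟨k', rfl⟩ := ex hk
        refine ⟨fun z => q j' z ∧ q k' z, Or.inr (Or.inr (Or.inr (Or.inl ⟨j', k', fun _ =>
          Iff.rfl⟩))), Or.inl fun z hz => ?_⟩
        show _ ↔ _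
        rw [h, ← hz, ← hz]
      · obtain ⟨j', rfl⟩ := ex hj
        obtain ⟨k', rfl⟩ := ex hk
        refine ⟨fun z => q j' z ∨ q k' z, Or.inr (Or.inr (Or.inr (Or.inr ⟨j', k', fun _ =>
          Iff.rfl⟩))), Or.inl fun z hz => ?_⟩
        show _ ↔ _
        rw [h, ← hz, ← hz]
      · by_cases hb : b (Fin.last s)
        · exact ⟨fun _ => True, Or.inr (Or.inl fun _ => trivial), Or.inr ⟨hB, j, hj, h, fun z =>
            iff_of_true trivial hb⟩⟩
        · exact ⟨fun _ => False, Or.inr (Or.inr (Or.inl fun _ => id)), Or.inr ⟨hB, j, hj, h,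
            fun z => iff_of_false id hb⟩⟩
    refine ⟨Fin.snoc (α := fun _ => (W → Bool) → Prop) q g, hq.snoc hg, fun i => ?_⟩
    refine Fin.lastCases ?_ (fun i => ?_) i
    · simp only [Fin.snoc_last]
      rcases hg' with h | h
      · refine Or.inl fun z hz => h z fun i' => ?_
        have := hz i'.castSucc (Fin.castSucc_lt_last i')
        simpa only [Fin.snoc_castSucc] using this
      · exact Or.inr h
    · simp only [Fin.snoc_castSucc]
      rcases hq' i with h | ⟨h1, j, hj, h2, h3⟩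
      · refine Or.inl fun z hz => h z fun i' hi' => ?_
        have := hz i'.castSucc (Fin.castSucc_lt_castSucc_iff.2 hi')
        simpa only [Fin.snoc_castSucc] using this
      · exact Or.inr ⟨by simpa using h1, j.castSucc, Fin.castSucc_lt_castSucc_iff.2 hj, h2, h3⟩

/-- A monotone program computes monotone functions. -/
theorem monProg_mono {W : Type} {s : ℕ} {q : Fin s → (W → Bool) → Prop} (hq : MonProg q) :
    ∀ i, ∀ z z', z ≤ z' → q i z → q i z' := by
  have key : ∀ (n : ℕ) (i : Fin s), (i : ℕ) = n → ∀ z z', z ≤ z' → q i z → q i z' := by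
    intro n
    induction n using Nat.strong_induction_on with
    | _ n ih =>
      intro i hi z z' hz hqz
      rcases hq i with ⟨v, h⟩ | h | h | ⟨j, k, hj, hk, h⟩ | ⟨j, k, hj, hk, h⟩
      · rw [h] at hqz ⊢
        have := hz v
        rw [hqz] at this
        exact top_le_iff.1 this
      · exact h _
      · exact absurd hqz (h _)
      · rw [h] at hqz ⊢
        exact ⟨ih j (by rw [← hi]; exact hj) j rfl z z' hz hqz.1,
          ih k (by rw [← hi]; exact hk) k rfl z z' hz hqz.2⟩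
      · rw [h] at hqz ⊢
        exact hqz.imp (ih j (by rw [← hi]; exact hj) j rfl z z' hz)
          (ih k (by rw [← hi]; exact hk) k rfl z z' hz)
  exact fun i => key i i rfl

/-- If on the negative inputs all negation gates are constant, then the circuit can be replaced by a
monotone one, up to a monotone function `G` which accepts positive inputs only. -/
theorem NegProg.elim {V W : Type} (e : (W → Bool) → V → Bool)
    (he : ∀ v, (∃ w, ∀ z, e z v = z w) ∨ ∃ c : Bool, ∀ z, e z v = c) {s : ℕ}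
    {B : Finset (Fin s)} {p : Fin s → (V → Bool) → Prop} (hp : NegProg B p)
    {Neg : Set (W → Bool)} (hbot : (⊥ : W → Bool) ∈ Neg)
    (hc : ∀ a ∈ B, ∀ z ∈ Neg, ∀ z' ∈ Neg, (p a (e z) ↔ p a (e z'))) :
    ∃ (s' : ℕ) (hs : s ≤ s') (q : Fin s' → (W → Bool) → Prop) (g : Fin s'), s' ≤ 3 * s + 1 ∧
      MonProg q ∧ (∀ z ∈ Neg, ¬ q g z) ∧ (∀ z ∈ Neg, ∀ i, (q (Fin.castLE hs i) z ↔ p i (e z))) ∧
      ∀ z, ¬ q g z → ∀ i, (q (Fin.castLE hs i) z ↔ p i (e z)) := by
  classical
  obtain ⟨q, hq, hq'⟩ := hp.replace e he fun i => p i (e ⊥)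
  have hneg : ∀ z ∈ Neg, ∀ i, (q i z ↔ p i (e z)) := by
    intro z hz
    have key : ∀ (n : ℕ) (i : Fin s), (i : ℕ) = n → (q i z ↔ p i (e z)) := by
      intro n
      induction n using Nat.strong_induction_on with
      | _ n ih =>
        intro i hi
        rcases hq' i with h | ⟨hB, j, hj, h1, h2⟩
        · exact h z fun i' hi' => ih i' (by rw [← hi]; exact hi') i' rfl
        · rw [h2]
          exact hc i hB ⊥ hbot z hz
    exact fun i => key i i rfl
  -- the inputs of the negation gates which are `1` on negative inputs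
  let f : Fin s → (Fin s → Prop) → Prop := fun i =>
    if h : ∃ j < i, (∀ x, p i x ↔ ¬ p j x) ∧ (∀ z, q i z ↔ p i (e ⊥)) ∧ p i (e ⊥) then
      fun y => y (Classical.choose h) else fun _ => False
  have hf : ∀ i, MF 1 (f i) := by
    intro i
    by_cases h : ∃ j < i, (∀ x, p i x ↔ ¬ p j x) ∧ (∀ z, q i z ↔ p i (e ⊥)) ∧ p i (e ⊥)
    · simp only [f, dif_pos h]
      exact MF.var _
    · simp only [f, dif_neg h]
      exact MF.fls
  obtain ⟨s', hs, q', h1, h2, h3, g, h4⟩ := (MF.exists hf).comp_aux hq id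
  refine ⟨s', hs, q', g, by omega, h2, fun z hz => ?_, fun z hz i => ?_, fun z hz => ?_⟩
  · rw [h4]
    rintro ⟨i, hi⟩
    by_cases h : ∃ j < i, (∀ x, p i x ↔ ¬ p j x) ∧ (∀ z, q i z ↔ p i (e ⊥)) ∧ p i (e ⊥)
    · simp only [f, dif_pos h, id] at hi
      obtain ⟨-, h5, h6, h7⟩ := Classical.choose_spec h
      rw [hneg z hz] at hi
      have h8 : q i z := (h6 z).2 h7
      rw [hneg z hz, h5] at h8
      exact h8 hi
    · simp only [f, dif_neg h] at hi
  · rw [h3]
    exact hneg z hz i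
  · rw [h4] at hz
    have hz := not_exists.1 hz
    have key : ∀ (n : ℕ) (i : Fin s), (i : ℕ) = n → (q i z ↔ p i (e z)) := by
      intro n
      induction n using Nat.strong_induction_on with
      | _ n ih =>
        intro i hi
        rcases hq' i with h | ⟨hB, j, hj, h5, h6⟩
        · exact h z fun i' hi' => ih i' (by rw [← hi]; exact hi') i' rfl
        · rw [h6]
          by_cases hb : p i (e ⊥)
          · have h : ∃ j < i, (∀ x, p i x ↔ ¬ p j x) ∧ (∀ z, q i z ↔ p i (e ⊥)) ∧ p i (e ⊥) :=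
              ⟨j, hj, h5, h6, hb⟩
            have hzi := hz i
            simp only [f, dif_pos h, id] at hzi
            obtain ⟨h7, h8, -, -⟩ := Classical.choose_spec h
            refine iff_of_true hb ?_
            rw [h8]
            rw [ih _ (by rw [← hi]; exact h7) _ rfl] at hzi
            exact hzi
          · refine iff_of_false hb ?_
            rw [h5, not_not]
            rw [← ih j (by rw [← hi]; exact hj) j rfl]
            refine monProg_mono hq j ⊥ z bot_le ?_
            rw [hneg ⊥ hbot]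
            by_contra h9
            exact hb ((h5 _).2 h9)
    intro i
    rw [h3]
    exact key i i rfl

end Pool.Agent.W74_5f6b2a
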